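import Pool.Agent.J4H4.NG.G5

set_option autoImplicit false

/-! # Project NG: (G), the end -/

namespace Pool.Agent.J4H4.NG

open Complex MeasureTheory Filter Topology Set

noncomputable section

theorem core {a μ κ δ c1 ε : ℝ} (ha : 0 < a) (hμ : 0 < μ) (hμ2 : μ < 1 / 2) (hκ : 0 < κ) (hδ : 0 < δ) (hc1 : 0 < c1)
    (hε : ε = κ * (Real.exp (-a) / 4) ^ 2 * c1 * δ / (768 * Real.exp (a * Real.pi ^ 2 / 16) ^ 2)) {z : ℕ} {l0 : ℝ}
    (hMS : S_MS) (hMOB : S_MOB) (hCH : ∀ N : ℕ, 2 ≤ N → c1 * N / Real.log N ≤ ((Pr N).card : ℝ))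
    (hNS : ∀ (N : ℕ) (lam l : ℝ), l0 ≤ l → l ^ 2 ≤ N →
      |Real.log N - lam| ≤ 1 → ∀ p ∈ Pr N, ∀ S : Finset ℕ, (∀ k ∈ S, Rough z k ∧ k ≠ p ∧ 1 ≤ k) →
      ∑ k ∈ S, (amp a lam k) ^ 2 * (wt l k p) ^ 2 ≤ ε * l / (N : ℝ) ^ 3)
    {L : ℝ} (hL : 1 ≤ L) (h1 : l0 ≤ κ * L) (h2 : 2 * (κ * L) ^ 2 ≤ Real.exp (μ * L)) (h3 : (z : ℝ) + 4 ≤ Real.exp (μ * L))
    (h4 : 8 * (primorial z : ℝ) / (Real.exp (-a) / 4) ≤ Real.exp (μ * L))
    (h5 : 144 * Real.exp (a * Real.pi ^ 2 / 16) / (Real.exp (-a) / 4) ≤ (κ * L / 2) ^ 2) (h6 : 2 ≤ a * μ ^ 2 * L)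
    (h7 : 8 * Real.exp (a * Real.pi ^ 2 / 16) * Z2 / (Real.exp (-a) / 4) ≤ Real.exp L)
    (h8 : Real.exp L ^ 4 * Real.exp (-(Real.exp (μ * L)) ^ 2 / 16) ≤ δ * (Real.exp (-a) / 4) ^ 2 / (96 * Real.exp (a * Real.pi ^ 2 / 16) ^ 2))
    {lam : ℝ} (hl1 : μ * L ≤ lam) (hl2 : lam ≤ (1 / 2 - μ) * L) :
    volume {v : ℝ | Real.exp L ≤ v ∧ v ≤ 2 * Real.exp L ∧ ∀ b : ℕ, 1 ≤ b → b ≤ primorial z → ∀ u : ℝ, 0 ≤ u → u ≤ κ * L →
      ‖DD a (lam - Real.log b) (v + u)‖ < Real.exp ((μ - 1) * L)} ≤ ENNReal.ofReal (δ * Real.exp L) := by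
  set A := Real.exp (a * Real.pi ^ 2 / 16) with hA
  set c := Real.exp (-a) / 4 with hc
  have hA0 : 0 < A := by rw [hA]; exact Real.exp_pos _
  have hc0 : 0 < c := by rw [hc]; positivity
  set T := Real.exp L with hT
  clear_value A c T
  have hT0 : 0 < T := by rw [hT]; exact Real.exp_pos _
  have hT1 : 1 ≤ T := by rw [hT]; exact Real.one_le_exp (by linarith)
  obtain ⟨X, hX⟩ : ∃ X : ℝ, X = Real.exp lam := ⟨_, rfl⟩
  have hX0 : 0 < X := by rw [hX]; exact Real.exp_pos _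
  have hXμ : Real.exp (μ * L) ≤ X := by rw [hX]; exact Real.exp_le_exp.2 hl1
  have hz0 : (0 : ℝ) ≤ z := Nat.cast_nonneg z
  have hX4 : 4 ≤ X := by linarith
  obtain ⟨N, hNX, hXN⟩ : ∃ N : ℕ, (N : ℝ) ≤ X ∧ X < N + 1 := ⟨⌊X⌋₊, Nat.floor_le hX0.le, Nat.lt_floor_add_one X⟩
  have hNX2 : X / 2 ≤ N := by linarith
  have hN2 : (2 : ℝ) ≤ N := by linarith
  have hN2' : 2 ≤ N := by exact_mod_cast hN2
  have hN0 : (0 : ℝ) < N := by linarith
  have hzN : z ≤ N := by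
    have : (z : ℝ) ≤ N := by linarith
    exact_mod_cast this
  obtain ⟨Q, hQ⟩ : ∃ Q : ℝ, Q = Real.exp (L / 2) := ⟨_, rfl⟩
  have hQ0 : 0 < Q := by rw [hQ]; exact Real.exp_pos _
  have hQQ : Q * Q = T := by rw [hQ, hT, ← Real.exp_add]; congr 1; ring
  obtain ⟨K, hKQ, hQK⟩ : ∃ K : ℕ, (K : ℝ) ≤ Q ∧ Q < K + 1 := ⟨⌊Q⌋₊, Nat.floor_le hQ0.le, Nat.lt_floor_add_one Q⟩
  set M := Real.exp (μ * L) with hM
  clear_value M
  have hM0 : 0 < M := by rw [hM]; exact Real.exp_pos _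
  have hM4 : 4 ≤ M := by linarith
  have hXM : X * M ≤ Q := by
    rw [hX, hM, hQ, ← Real.exp_add]
    apply Real.exp_le_exp.2
    linarith
  have hMQ : M ≤ Q := by
    rw [hM, hQ]
    apply Real.exp_le_exp.2
    have : μ * L ≤ 1 / 2 * L := mul_le_mul_of_nonneg_right hμ2.le (by linarith)
    linarith
  have h2NK : 2 * N ≤ K := by
    have h9 : 4 * X ≤ Q := by
      calc 4 * X ≤ M * X := mul_le_mul_of_nonneg_right hM4 hX0.le
        _ = X * M := mul_comm _ _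
        _ ≤ Q := hXM
    have : (2 : ℝ) * N ≤ K := by linarith
    exact_mod_cast this
  obtain ⟨h, hh⟩ : ∃ h : ℝ, h = κ * L / 2 := ⟨_, rfl⟩
  have hh0 : 0 < h := by rw [hh]; positivity
  have hlogN : |Real.log N - lam| ≤ 1 := by
    have hl2 : Real.log 2 < 0.6931471808 := Real.log_two_lt_d9
    have g1 : Real.log N ≤ lam := by
      have := Real.log_le_log hN0 hNX
      rwa [hX, Real.log_exp] at this
    have g2 : lam - Real.log 2 ≤ Real.log N := by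
      have := Real.log_le_log (by positivity) hNX2
      rwa [Real.log_div hX0.ne' (by norm_num), hX, Real.log_exp] at this
    rw [abs_le]
    constructor <;> linarith
  have hlogN1 : Real.log N ≤ lam := by
    have := Real.log_le_log hN0 hNX
    rwa [hX, Real.log_exp] at this
  have hlogN0 : 0 < Real.log N := Real.log_pos (by linarith)
  have hNS' : ∀ p ∈ Pr N, ∀ S : Finset ℕ, (∀ k ∈ S, Rough z k ∧ k ≠ p ∧ 1 ≤ k) →
      ∑ k ∈ S, (amp a lam k) ^ 2 * (wt (2 * h) k p) ^ 2 ≤ ε * (2 * h) / (N : ℝ) ^ 3 := by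
    have e : 2 * h = κ * L := by rw [hh]; ring
    rw [e]
    refine hNS N lam (κ * L) h1 ?_ hlogN
    linarith
  obtain ⟨n, hn⟩ : ∃ n : ℝ, n = ((Pr N).card : ℝ) := ⟨_, rfl⟩
  have hCHN := hCH N hN2'
  have hn1 : 1 ≤ n := by
    have g1 : 0 < c1 * N / Real.log N := by positivity
    have g2 : (0 : ℝ) < ((Pr N).card : ℝ) := lt_of_lt_of_le g1 hCHN
    have g3 : 0 < (Pr N).card := by exact_mod_cast g2
    rw [hn]
    exact_mod_cast g3
  rw [← hn] at hCHN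
  have hn0 : 0 < n := by linarith
  obtain ⟨x, hx⟩ : ∃ x : ℝ, x = Real.exp (-lam) := ⟨_, rfl⟩
  have hx0 : 0 < x := by rw [hx]; exact Real.exp_pos _
  have hxX : x⁻¹ = X := by rw [hx, Real.exp_neg, inv_inv, hX]
  have hx2 : Real.exp (-2 * lam) = x ^ 2 := by
    rw [hx, ← Real.exp_nat_mul]; congr 1; push_cast; ring
  have hXT : X ^ 2 * M ^ 2 ≤ T := by
    rw [← hQQ, ← mul_pow, ← pow_two]
    exact pow_le_pow_left₀ (by positivity) hXM 2
  have hx2M : M ^ 2 / T ≤ x ^ 2 := by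
    have : x ^ 2 = (X ^ 2)⁻¹ := by rw [← hxX, inv_pow, inv_inv]
    rw [this, ← one_div, div_le_div_iff₀ hT0 (by positivity)]
    linarith
  obtain ⟨η, hη⟩ : ∃ η : ℝ, η = 1 / 2 * h * n * c * x ^ 2 := ⟨_, rfl⟩
  have hη0 : 0 < η := by rw [hη]; positivity
  obtain ⟨B, hB⟩ : ∃ B : ℝ, B = 2 * X * Q := ⟨_, rfl⟩
  have hB0 : 0 < B := by rw [hB]; positivity
  have hBNK : ((2 * N * K : ℕ) : ℝ) ≤ B := by
    push_cast
    rw [hB]
    gcongr
  have hvol := vol_le (lam := lam) (ε := ε) (T := T) (η := η) (B := B) ha hh0 hT1 hη0 hMS hB0 hBNK hNS'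
  rw [← hA, ← hn] at hvol
  have hsub : {v : ℝ | T ≤ v ∧ v ≤ 2 * T ∧ ∀ b : ℕ, 1 ≤ b → b ≤ primorial z → ∀ u : ℝ, 0 ≤ u → u ≤ κ * L →
      ‖DD a (lam - Real.log b) (v + u)‖ < Real.exp ((μ - 1) * L)} ⊆
      {v : ℝ | (T ≤ v ∧ v ≤ 2 * T) ∧ η ≤ ‖R1 a lam h z K N v‖} := by
    rintro v ⟨v1, v2, v3⟩
    refine ⟨⟨v1, v2⟩, ?_⟩
    have hEE : Real.exp ((μ - 1) * L) = M / T := by
      rw [hM, hT, ← Real.exp_sub]; congr 1; ring
    rw [hEE] at v3
    have hF : ∀ u : ℝ, 0 ≤ u → u ≤ 2 * h → ‖FF z a lam (v + u)‖ ≤ (primorial z : ℝ) * (M / T) := by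
      intro u hu0 hu1
      refine FF_le ha hMOB le_rfl fun b hb1 hb2 => ?_
      have := v3 b hb1 hb2 u hu0 (by rw [hh] at hu1; linarith)
      have e : ((v + u : ℝ) : ℝ) = v + u := rfl
      exact this.le
    have hτK : μ * L ≤ Real.log ((K : ℝ) + 1) - lam := by
      have g1 : Real.log Q ≤ Real.log ((K : ℝ) + 1) := Real.log_le_log hQ0 hQK.le
      rw [hQ, Real.log_exp] at g1
      linarith
    have hR := R1_lower (τ := μ * L) ha hh0 (by omega : 1 ≤ N) hzN h2NK (by positivity) hτK hF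
    rw [← hA, ← hn] at hR
    refine le_trans ?_ hR
    have hsl := sum_lower ha (by omega : 1 ≤ N) (hX ▸ hNX) (hX ▸ hNX2) (lam := lam) (a := a)
    rw [hx2, ← hc, ← hn] at hsl
    have b1 : A * (9 / (h * (N : ℝ) ^ 2)) ≤ h * (c * x ^ 2) / 4 := by
      have g1 : (9 : ℝ) / (h * (N : ℝ) ^ 2) ≤ 36 / (h * X ^ 2) := by
        have g0 : (X / 2) ^ 2 ≤ (N : ℝ) ^ 2 := pow_le_pow_left₀ (by positivity) hNX2 2
        calc (9 : ℝ) / (h * (N : ℝ) ^ 2) ≤ 9 / (h * (X / 2) ^ 2) := by gcongr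
          _ = 36 / (h * X ^ 2) := by field_simp; norm_num
      have g2 : x ^ 2 = (X ^ 2)⁻¹ := by rw [← hxX, inv_pow, inv_inv]
      have g3 : 144 * A ≤ h ^ 2 * c := by
        rw [div_le_iff₀ hc0] at h5
        rw [hh]
        exact h5
      calc A * (9 / (h * (N : ℝ) ^ 2)) ≤ A * (36 / (h * X ^ 2)) := by gcongr
        _ = 144 * A / (4 * h * X ^ 2) := by field_simp; norm_num
        _ ≤ h ^ 2 * c / (4 * h * X ^ 2) := by gcongr
        _ = h * (c * x ^ 2) / 4 := by rw [g2]; field_simp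
    have b2 : (primorial z : ℝ) * (M / T) ≤ c * x ^ 2 / 8 := by
      rw [div_le_iff₀ hc0] at h4
      calc (primorial z : ℝ) * (M / T) = (8 * primorial z) * M / (8 * T) := by field_simp
        _ ≤ (M * c) * M / (8 * T) := by gcongr
        _ = c * (M ^ 2 / T) / 8 := by field_simp
        _ ≤ c * x ^ 2 / 8 := by gcongr
    have b3 : A * (Real.exp (-a * (μ * L) ^ 2) * Z2) ≤ c * x ^ 2 / 8 := by
      have g1 : Real.exp (-a * (μ * L) ^ 2) ≤ (T * T)⁻¹ := by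
        rw [hT, ← Real.exp_add, ← Real.exp_neg]
        apply Real.exp_le_exp.2
        have g0 : 2 * L ≤ a * μ ^ 2 * L * L := mul_le_mul_of_nonneg_right h6 (by linarith)
        have g00 : a * μ ^ 2 * L * L = a * (μ * L) ^ 2 := by ring
        linarith
      have g2 : 8 * A * Z2 ≤ T * c := by rwa [div_le_iff₀ hc0] at h7
      have g3 : 1 ≤ M ^ 2 := one_le_pow₀ (by linarith)
      have g4 := Z2_nonneg
      calc A * (Real.exp (-a * (μ * L) ^ 2) * Z2) ≤ A * ((T * T)⁻¹ * Z2) := by gcongr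
        _ = (8 * A * Z2) * (T * T)⁻¹ / 8 := by ring
        _ ≤ (T * c) * (T * T)⁻¹ / 8 := by gcongr
        _ = c * (1 / T) / 8 := by field_simp
        _ ≤ c * (M ^ 2 / T) / 8 := by gcongr
        _ ≤ c * x ^ 2 / 8 := by gcongr
    have b4 : h * (n * (c * x ^ 2)) ≤ h * ∑ p ∈ Pr N, ‖fk a lam p‖ := by gcongr
    have b5 : n * (A * (9 / (h * (N : ℝ) ^ 2))) ≤ n * (h * (c * x ^ 2) / 4) := by gcongr
    have b6 : h * (((primorial z : ℝ) * (M / T) + A * (Real.exp (-a * (μ * L) ^ 2) * Z2)) * n) ≤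
        h * ((c * x ^ 2 / 8 + c * x ^ 2 / 8) * n) := by gcongr
    rw [hη]
    linarith
  refine (measure_mono hsub).trans (hvol.trans ?_)
  apply ENNReal.ofReal_le_ofReal
  have hll : Real.log N ≤ L / 2 := by
    have : μ * L ≥ 0 := by positivity
    linarith
  have p1 := calc1 hA0 hc0 hT0 hκ hc1 hδ hε hh (by linarith) hN2 hlogN0 hll hCHN hx0 (by rw [hxX]; linarith)
  have hM1 : 1 ≤ M ^ 2 := one_le_pow₀ (by linarith)
  have hX2T : X ^ 2 ≤ T := (le_mul_of_one_le_right (sq_nonneg X) hM1).trans hXT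
  have hBT : B ≤ 2 * T := by
    have g1 : X ≤ Q := (le_mul_of_one_le_right hX0.le (by linarith)).trans hXM
    have g2 : X * Q ≤ Q * Q := mul_le_mul_of_nonneg_right g1 hQ0.le
    rw [hB, ← hQQ]
    linarith
  have hQe : Real.exp (-(T * (1 / B)) ^ 2 / 4) ≤ Real.exp (-M ^ 2 / 16) := by
    apply Real.exp_le_exp.2
    have g1 : M / 2 ≤ T * (1 / B) := by
      rw [mul_one_div, div_le_div_iff₀ (by norm_num) hB0, hB, ← hQQ]
      have g3 : (X * M) * Q ≤ Q * Q := mul_le_mul_of_nonneg_right hXM hQ0.le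
      linarith
    have g2 : (M / 2) ^ 2 ≤ (T * (1 / B)) ^ 2 := pow_le_pow_left₀ (by positivity) g1 2
    have g4 : (M / 2) ^ 2 = M ^ 2 / 4 := by ring
    rw [g4] at g2
    linarith
  have p2 := calc2 (n := n) hA0 hc0 hT0 hh0 hn1 hx0 (by rw [hxX]; exact hX2T) hB0 hBT (Real.exp_pos _).le
    (le_trans (by gcongr) h8 : T ^ 4 * Real.exp (-(T * (1 / B)) ^ 2 / 4) ≤ δ * c ^ 2 / (96 * A ^ 2))
  rw [← hη] at p1 p2
  calc _ = 3 * T * (A ^ 2 * (n * (ε * (2 * h) / (N : ℝ) ^ 3))) / η ^ 2 +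
      3 * T * (Real.exp (-(T * (1 / B)) ^ 2 / 4) * (B * (A * h)) ^ 2) / η ^ 2 := by ring
    _ ≤ δ * T / 2 + δ * T / 2 := add_le_add p1 p2
    _ = δ * T := by ring

theorem t_G : S_G := by
  intro hNS hMS hMOB hCH a μ κ δ ha hμ hμ2 hκ hδ
  obtain ⟨c1, hc1, hCH'⟩ := hCH
  set A := Real.exp (a * Real.pi ^ 2 / 16) with hA
  set c := Real.exp (-a) / 4 with hc
  have hA0 : 0 < A := Real.exp_pos _
  have hc0 : 0 < c := by rw [hc]; positivity
  have hε0 : 0 < κ * c ^ 2 * c1 * δ / (768 * A ^ 2) := by positivity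
  obtain ⟨z, l0, -, hNS'⟩ := hNS a _ ha hε0
  have tL : Tendsto (fun L : ℝ => L) atTop atTop := tendsto_id
  have tM : Tendsto (fun L : ℝ => Real.exp (μ * L)) atTop atTop :=
    Real.tendsto_exp_atTop.comp (tL.const_mul_atTop hμ)
  have ev1 : ∀ᶠ L : ℝ in atTop, l0 ≤ κ * L := (tL.const_mul_atTop hκ).eventually_ge_atTop l0
  have ev2 : ∀ᶠ L : ℝ in atTop, 2 * (κ * L) ^ 2 ≤ Real.exp (μ * L) := by
    have t1 : Tendsto (fun x : ℝ => Real.exp x / x ^ 2) atTop atTop := Real.tendsto_exp_div_pow_atTop 2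
    have t2 := t1.comp (tL.const_mul_atTop hμ)
    filter_upwards [t2.eventually_ge_atTop (2 * κ ^ 2 / μ ^ 2), eventually_ge_atTop 1] with L g1 g2
    simp only [Function.comp] at g1
    rw [le_div_iff₀ (by positivity)] at g1
    calc 2 * (κ * L) ^ 2 = 2 * κ ^ 2 / μ ^ 2 * (μ * L) ^ 2 := by field_simp
      _ ≤ _ := g1
  have ev3 : ∀ᶠ L : ℝ in atTop, (z : ℝ) + 4 ≤ Real.exp (μ * L) := tM.eventually_ge_atTop _
  have ev4 : ∀ᶠ L : ℝ in atTop, 8 * (primorial z : ℝ) / c ≤ Real.exp (μ * L) := tM.eventually_ge_atTop _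
  have ev5 : ∀ᶠ L : ℝ in atTop, 144 * A / c ≤ (κ * L / 2) ^ 2 := by
    have t1 : Tendsto (fun L : ℝ => κ / 2 * L) atTop atTop := tL.const_mul_atTop (by positivity)
    have t2 : Tendsto (fun L : ℝ => (κ / 2 * L) ^ 2) atTop atTop := (tendsto_pow_atTop (by norm_num)).comp t1
    filter_upwards [t2.eventually_ge_atTop (144 * A / c)] with L g1
    refine g1.trans (le_of_eq ?_)
    ring
  have ev6 : ∀ᶠ L : ℝ in atTop, 2 ≤ a * μ ^ 2 * L := (tL.const_mul_atTop (by positivity)).eventually_ge_atTop 2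
  have ev7 : ∀ᶠ L : ℝ in atTop, 8 * A * Z2 / c ≤ Real.exp L := Real.tendsto_exp_atTop.eventually_ge_atTop _
  have ev8 : ∀ᶠ L : ℝ in atTop, Real.exp L ^ 4 * Real.exp (-(Real.exp (μ * L)) ^ 2 / 16) ≤ δ * c ^ 2 / (96 * A ^ 2) := by
    have hpos : 0 < δ * c ^ 2 / (96 * A ^ 2) := by positivity
    -- `exp (μ L) ^ 2 ≥ 16 * 5 * L`
    have t1 : Tendsto (fun x : ℝ => Real.exp x / x ^ 2) atTop atTop := Real.tendsto_exp_div_pow_atTop 2
    have t2 := t1.comp (tL.const_mul_atTop hμ)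
    have t3 : Tendsto (fun L : ℝ => Real.exp (-L)) atTop (𝓝 0) := Real.tendsto_exp_neg_atTop_nhds_zero
    filter_upwards [t2.eventually_ge_atTop (80 / μ ^ 2), eventually_ge_atTop 1, t3.eventually_le_const hpos] with L g1 g2 g3
    simp only [Function.comp] at g1
    rw [le_div_iff₀ (by positivity)] at g1
    have g4 : 80 * L ^ 2 ≤ Real.exp (μ * L) := by
      calc 80 * L ^ 2 = 80 / μ ^ 2 * (μ * L) ^ 2 := by field_simp
        _ ≤ _ := g1
    have g5 : 80 * L ≤ Real.exp (μ * L) := by nlinarith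
    have g6 : 80 * L ≤ Real.exp (μ * L) ^ 2 := by nlinarith
    refine le_trans ?_ g3
    rw [← Real.exp_nat_mul, ← Real.exp_add]
    apply Real.exp_le_exp.2
    push_cast
    linarith
  obtain ⟨L0, hL0⟩ := eventually_atTop.1 (ev1.and (ev2.and (ev3.and (ev4.and (ev5.and (ev6.and (ev7.and (ev8.and (eventually_ge_atTop (1 : ℝ))))))))))
  refine ⟨primorial z, max 2 (Real.exp L0), primorial_pos z, le_max_left _ _, ?_⟩
  intro T hT lam hl1 hl2
  have hT2 : 2 ≤ T := (le_max_left _ _).trans hT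
  have hT0 : 0 < T := by linarith
  have hTe : Real.exp (Real.log T) = T := Real.exp_log hT0
  have hL : L0 ≤ Real.log T := by
    rw [Real.le_log_iff_exp_le hT0]
    exact (le_max_right _ _).trans hT
  obtain ⟨g1, g2, g3, g4, g5, g6, g7, g8, g9⟩ := hL0 _ hL
  have := core (lam := lam) ha hμ hμ2 hκ hδ hc1 rfl hMS hMOB (fun N hN => hCH' N hN) (fun N lam l => hNS' N lam l) g9 g1 g2 g3 g4 g5 g6 g7 g8 hl1 hl2
  rw [hTe] at this
  have e : Real.exp ((μ - 1) * Real.log T) = T ^ (μ - 1) := by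
    rw [Real.rpow_def_of_pos hT0, mul_comm]
  rw [e] at this
  exact this

end

end Pool.Agent.J4H4.NG
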