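import Pool.Agent.J4H4.NG.Stm

set_option autoImplicit false

/-! # Project NG: (G), preparations -/

namespace Pool.Agent.J4H4.NG

open Complex MeasureTheory Filter Topology Set

noncomputable section

/-- the coefficient -/
def fk (a lam : ℝ) (k : ℕ) : ℂ := ((k : ℂ) ^ 2)⁻¹ * cexp (-(a : ℂ) * ((Real.log (k : ℝ) : ℂ) - lam - I * (Real.pi / 4)) ^ 2)

theorem fk_norm (a lam : ℝ) (k : ℕ) : ‖fk a lam k‖ = Real.exp (a * Real.pi ^ 2 / 16) * amp a lam k := by
  unfold fk amp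
  rw [norm_mul, norm_inv, norm_pow, Complex.norm_natCast, Complex.norm_exp]
  generalize Real.log (k : ℝ) = x
  have h : (-(a : ℂ) * ((x : ℂ) - lam - I * (Real.pi / 4)) ^ 2).re =
      a * Real.pi ^ 2 / 16 + -a * (x - lam) ^ 2 := by
    have e : (x : ℂ) - lam - I * (Real.pi / 4) = ⟨x - lam, -(Real.pi / 4)⟩ := by
      apply Complex.ext <;> simp
    rw [e]
    simp only [pow_two, neg_mul, Complex.neg_re, Complex.mul_re, Complex.ofReal_re, Complex.ofReal_im, Complex.mul_im]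
    ring
  rw [h, Real.exp_add]
  ring

theorem term_eq (a lam v : ℝ) (n : ℕ) : ((n : ℂ) + 1) ^ (-(2 : ℂ) - I * v) *
    cexp (-(a : ℂ) * ((Real.log ((n : ℝ) + 1) : ℂ) - lam - I * (Real.pi / 4)) ^ 2) =
    fk a lam (n + 1) * cexp (I * (((-Real.log ((n + 1 : ℕ) : ℝ) : ℝ) : ℂ) * v)) := by
  have h0 : ((n : ℂ) + 1) ≠ 0 := by exact_mod_cast Nat.succ_ne_zero n
  have h1 : ((n : ℂ) + 1) = (((n : ℝ) + 1 : ℝ) : ℂ) := by push_cast; rfl
  have h2 : ((n : ℂ) + 1) ^ (-(2 : ℂ) - I * v) = (((n + 1 : ℕ) : ℂ) ^ 2)⁻¹ * cexp (I * (((-Real.log ((n + 1 : ℕ) : ℝ) : ℝ) : ℂ) * v)) := by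
    rw [Complex.cpow_sub _ _ h0, Complex.cpow_neg]
    have e1 : ((n : ℂ) + 1) ^ (2 : ℂ) = ((n + 1 : ℕ) : ℂ) ^ 2 := by
      push_cast
      exact Complex.cpow_ofNat _ 2
    rw [e1, Complex.cpow_def_of_ne_zero h0, div_eq_mul_inv, ← Complex.exp_neg]
    congr 2
    rw [h1, ← Complex.ofReal_log (by positivity)]
    push_cast
    ring
  rw [h2]
  unfold fk
  push_cast
  ring

/-- the double average over `[0, h]²` -/
def dav (h : ℝ) (G : ℝ → ℂ) (v : ℝ) : ℂ := ((1 / h : ℝ) : ℂ) * ∫ u₁ in (0 : ℝ)..h, ∫ u₂ in (0 : ℝ)..h, G (v + u₁ + u₂)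

/-- its multiplier -/
def Sh (h x : ℝ) : ℂ := ((1 / h : ℝ) : ℂ) * (∫ u in (0 : ℝ)..h, cexp (I * (x * u))) ^ 2

theorem Sh_zero {h : ℝ} (hh : 0 < h) : Sh h 0 = (h : ℂ) := by
  unfold Sh
  have : ∀ u : ℝ, cexp (I * (((0 : ℝ) : ℂ) * u)) = 1 := by intro u; simp
  simp only [this, intervalIntegral.integral_const, sub_zero]
  have h0 : (h : ℂ) ≠ 0 := by exact_mod_cast hh.ne'
  simp
  field_simp

theorem Sh_le {h : ℝ} (hh : 0 < h) (x : ℝ) : ‖Sh h x‖ ≤ h := by
  unfold Sh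
  have h1 : ‖∫ u in (0 : ℝ)..h, cexp (I * (x * u))‖ ≤ h := by
    have := intervalIntegral.norm_integral_le_of_norm_le_const (a := 0) (b := h) (C := 1) (f := fun u : ℝ => cexp (I * (x * u)))
      (fun u _ => by
        rw [Complex.norm_exp]
        simp)
    simpa [abs_of_pos hh] using this
  rw [norm_mul, norm_pow, Complex.norm_real, Real.norm_eq_abs, abs_of_pos (by positivity)]
  calc 1 / h * ‖∫ u in (0 : ℝ)..h, cexp (I * (x * u))‖ ^ 2 ≤ 1 / h * h ^ 2 := by gcongr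
    _ = h := by field_simp

theorem Sh_le2 {h : ℝ} (hh : 0 < h) {x : ℝ} (hx : x ≠ 0) : ‖Sh h x‖ ≤ 4 / (h * x ^ 2) := by
  unfold Sh
  have hxc : (I * (x : ℂ)) ≠ 0 := mul_ne_zero I_ne_zero (by exact_mod_cast hx)
  have h1 : ∫ u in (0 : ℝ)..h, cexp (I * (x * u)) = (cexp (I * x * h) - 1) / (I * x) := by
    have := integral_exp_mul_complex (a := 0) (b := h) hxc
    rw [show (fun u : ℝ => cexp (I * (x * u))) = fun u : ℝ => cexp (I * (x : ℂ) * u) by
      funext u; rw [mul_assoc], this]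
    simp
  have h2 : ‖∫ u in (0 : ℝ)..h, cexp (I * (x * u))‖ ≤ 2 / |x| := by
    rw [h1, norm_div, norm_mul, Complex.norm_I, one_mul, Complex.norm_real, Real.norm_eq_abs]
    have h3 : ‖cexp (I * x * h) - 1‖ ≤ 2 := by
      refine (norm_sub_le _ _).trans ?_
      rw [Complex.norm_exp]
      simp
      norm_num
    gcongr
  rw [norm_mul, norm_pow, Complex.norm_real, Real.norm_eq_abs, abs_of_pos (by positivity)]
  calc 1 / h * ‖∫ u in (0 : ℝ)..h, cexp (I * (x * u))‖ ^ 2 ≤ 1 / h * (2 / |x|) ^ 2 := by gcongr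
    _ = 4 / (h * x ^ 2) := by
      rw [div_pow, sq_abs]
      field_simp
      norm_num

theorem dav_sum {ι : Type} (J : Finset ι) (om : ι → ℝ) (A : ι → ℂ) (h v : ℝ) :
    dav h (fun y => ∑ j ∈ J, A j * cexp (I * (om j * y))) v = ∑ j ∈ J, A j * Sh h (om j) * cexp (I * (om j * v)) := by
  unfold dav
  have e1 : ∀ u₁ : ℝ, ∫ u₂ in (0 : ℝ)..h, (∑ j ∈ J, A j * cexp (I * (om j * ((v + u₁ + u₂ : ℝ) : ℂ)))) =
      ∑ j ∈ J, A j * cexp (I * (om j * v)) * cexp (I * (om j * u₁)) * ∫ u in (0 : ℝ)..h, cexp (I * (om j * u)) := by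
    intro u₁
    rw [intervalIntegral.integral_finsetSum]
    · refine Finset.sum_congr rfl fun j _ => ?_
      rw [← intervalIntegral.integral_const_mul]
      refine intervalIntegral.integral_congr fun u₂ _ => ?_
      rw [mul_assoc, mul_assoc, ← Complex.exp_add, ← Complex.exp_add]
      congr 2
      push_cast
      ring
    · intro j _
      exact (by fun_prop : Continuous _).intervalIntegrable _ _
  have e2 : ∫ u₁ in (0 : ℝ)..h, ∫ u₂ in (0 : ℝ)..h, (∑ j ∈ J, A j * cexp (I * (om j * ((v + u₁ + u₂ : ℝ) : ℂ)))) =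
      ∑ j ∈ J, A j * cexp (I * (om j * v)) * (∫ u in (0 : ℝ)..h, cexp (I * (om j * u))) ^ 2 := by
    simp only [e1]
    rw [intervalIntegral.integral_finsetSum]
    · refine Finset.sum_congr rfl fun j _ => ?_
      rw [intervalIntegral.integral_mul_const, intervalIntegral.integral_const_mul]
      ring
    · intro j _
      exact (by fun_prop : Continuous _).intervalIntegrable _ _
  rw [e2, Finset.mul_sum]
  refine Finset.sum_congr rfl fun j _ => ?_
  unfold Sh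
  ring

theorem dav_le {h B : ℝ} (hh : 0 < h) {G : ℝ → ℂ} {v : ℝ} (hG : ∀ u : ℝ, 0 ≤ u → u ≤ 2 * h → ‖G (v + u)‖ ≤ B) :
    ‖dav h G v‖ ≤ h * B := by
  unfold dav
  have hB : ∀ u₁ ∈ Set.uIoc (0 : ℝ) h, ‖∫ u₂ in (0 : ℝ)..h, G (v + u₁ + u₂)‖ ≤ B * h := by
    intro u₁ h1
    rw [Set.uIoc_of_le hh.le] at h1
    have := intervalIntegral.norm_integral_le_of_norm_le_const (a := 0) (b := h) (C := B) (f := fun u₂ : ℝ => G (v + u₁ + u₂))
      (fun u₂ h2 => by
        rw [Set.uIoc_of_le hh.le] at h2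
        rw [add_assoc]
        exact hG _ (by linarith [h1.1, h2.1]) (by linarith [h1.2, h2.2]))
    simpa [abs_of_pos hh] using this
  have h3 := intervalIntegral.norm_integral_le_of_norm_le_const hB
  rw [sub_zero, abs_of_pos hh] at h3
  rw [norm_mul, Complex.norm_real, Real.norm_eq_abs, abs_of_pos (by positivity)]
  calc 1 / h * _ ≤ 1 / h * (B * h * h) := by gcongr
    _ = h * B := by field_simp

/-- distinct natural numbers -/
theorem log_gap {m n : ℕ} (hm : 1 ≤ m) (hn : 1 ≤ n) (hne : m ≠ n) {B : ℝ} (h1 : (m : ℝ) ≤ B) (h2 : (n : ℝ) ≤ B) :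
    1 / B ≤ |Real.log m - Real.log n| := by
  wlog h : n < m generalizing m n
  · rw [abs_sub_comm]
    exact this hn hm hne.symm h2 h1 (lt_of_le_of_ne (not_lt.1 h) hne)
  have hm0 : (0 : ℝ) < m := by exact_mod_cast hm
  have hn0 : (0 : ℝ) < n := by exact_mod_cast hn
  have hB : 0 < B := lt_of_lt_of_le hm0 h1
  have h3 : (n : ℝ) + 1 ≤ m := by exact_mod_cast h
  have h4 := Real.one_sub_inv_le_log_of_pos (div_pos hm0 hn0)
  rw [Real.log_div hm0.ne' hn0.ne'] at h4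
  have h5 : 1 / B ≤ 1 - ((m : ℝ) / n)⁻¹ := by
    rw [inv_div]
    have h6 : 1 - (n : ℝ) / m = (m - n) / m := by field_simp
    rw [h6, div_le_div_iff₀ hB hm0]
    nlinarith
  exact (h5.trans h4).trans (le_abs_self _)

end

end Pool.Agent.J4H4.NG
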