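import Pool.Agent.J4H4.NG.G1

set_option autoImplicit false

/-! # Project NG: (G), the tail and the multiples of `p` -/

namespace Pool.Agent.J4H4.NG

open Complex MeasureTheory Filter Topology Set
noncomputable section

/-- the sifted series -/
def FF (z : ℕ) (a lam v : ℝ) : ℂ := ∑' n : ℕ, (open Classical in if Rough z (n + 1) then ((n : ℂ) + 1) ^ (-(2 : ℂ) - I * v) *
    cexp (-(a : ℂ) * ((Real.log ((n : ℝ) + 1) : ℂ) - lam - I * (Real.pi / 4)) ^ 2) else 0)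

/-- rough numbers up to `K` -/
def Kr (z K : ℕ) : Finset ℕ := open Classical in (Finset.Icc 1 K).filter (fun k => Rough z k)

def Z2 : ℝ := ∑' n : ℕ, (((n : ℝ) + 1) ^ 2)⁻¹

theorem Z2_sum : Summable (fun n : ℕ => (((n : ℝ) + 1) ^ 2)⁻¹) := by
  have h := (summable_nat_add_iff 1).2 (Real.summable_nat_pow_inv.2 (by norm_num : 1 < 2))
  simpa using h

theorem Z2_nonneg : 0 ≤ Z2 := tsum_nonneg fun n => by positivity

theorem amp_nonneg (a lam : ℝ) (k : ℕ) : 0 ≤ amp a lam k := by unfold amp; positivity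

theorem amp_le {a : ℝ} (ha : 0 < a) (lam : ℝ) (k : ℕ) : amp a lam k ≤ ((k : ℝ) ^ 2)⁻¹ := by
  unfold amp
  have : Real.exp (-a * (Real.log k - lam) ^ 2) ≤ 1 := by
    rw [Real.exp_le_one_iff]
    nlinarith [mul_nonneg ha.le (sq_nonneg (Real.log k - lam))]
  calc ((k : ℝ) ^ 2)⁻¹ * Real.exp (-a * (Real.log k - lam) ^ 2) ≤ ((k : ℝ) ^ 2)⁻¹ * 1 := by gcongr
    _ = _ := mul_one _

theorem amp_tail {a lam τ : ℝ} (ha : 0 < a) {k : ℕ} (hτ : 0 ≤ τ) (h : τ ≤ Real.log k - lam) :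
    amp a lam k ≤ Real.exp (-a * τ ^ 2) * ((k : ℝ) ^ 2)⁻¹ := by
  unfold amp
  rw [mul_comm]
  have : τ ^ 2 ≤ (Real.log k - lam) ^ 2 := pow_le_pow_left₀ hτ h 2
  have h2 : -a * (Real.log k - lam) ^ 2 ≤ -a * τ ^ 2 := by nlinarith
  gcongr

/-- the general term -/
def gt (z : ℕ) (a lam v : ℝ) (n : ℕ) : ℂ := open Classical in
  if Rough z (n + 1) then fk a lam (n + 1) * cexp (I * (((-Real.log ((n + 1 : ℕ) : ℝ) : ℝ) : ℂ) * v)) else 0

theorem FF_eq (z : ℕ) (a lam v : ℝ) : FF z a lam v = ∑' n, gt z a lam v n := by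
  unfold FF gt
  refine tsum_congr fun n => ?_
  split_ifs with h
  · exact term_eq a lam v n
  · rfl

theorem gt_norm (z : ℕ) (a lam v : ℝ) (n : ℕ) : ‖gt z a lam v n‖ ≤ Real.exp (a * Real.pi ^ 2 / 16) * amp a lam (n + 1) := by
  unfold gt
  split_ifs
  · rw [norm_mul, fk_norm]
    have : ‖cexp (I * (((-Real.log ((n + 1 : ℕ) : ℝ) : ℝ) : ℂ) * v))‖ = 1 := by
      rw [← Complex.ofReal_mul, mul_comm, Complex.norm_exp_ofReal_mul_I]
    rw [this, mul_one]
  · rw [norm_zero]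
    have := amp_nonneg a lam (n + 1)
    positivity

theorem gt_summable {a : ℝ} (ha : 0 < a) (z : ℕ) (lam v : ℝ) : Summable (fun n => gt z a lam v n) := by
  refine Summable.of_norm_bounded (g := fun n : ℕ => Real.exp (a * Real.pi ^ 2 / 16) * (((n : ℝ) + 1) ^ 2)⁻¹) (Z2_sum.mul_left _) fun n => ?_
  refine (gt_norm z a lam v n).trans ?_
  have := amp_le ha lam (n + 1)
  push_cast at this
  gcongr

theorem range_sum (z K : ℕ) (a lam v : ℝ) : ∑ n ∈ Finset.range K, gt z a lam v n =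
    ∑ k ∈ Kr z K, fk a lam k * cexp (I * (((-Real.log (k : ℝ) : ℝ) : ℂ) * v)) := by
  classical
  unfold Kr gt
  rw [Finset.sum_filter]
  have e0 : ∀ n ∈ Finset.range K, (open Classical in if Rough z (n + 1) then fk a lam (n + 1) *
      cexp (I * (((-Real.log ((n + 1 : ℕ) : ℝ) : ℝ) : ℂ) * v)) else 0) =
      (fun k : ℕ => open Classical in if Rough z k then fk a lam k * cexp (I * (((-Real.log (k : ℝ) : ℝ) : ℂ) * v)) else 0) (n + 1) :=
    fun n _ => rfl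
  rw [Finset.sum_congr rfl e0, ← Finset.sum_image (s := Finset.range K) (g := fun n => n + 1)
    (f := fun k : ℕ => open Classical in if Rough z k then fk a lam k * cexp (I * (((-Real.log (k : ℝ) : ℝ) : ℂ) * v)) else 0)]
  · congr 1
    ext k
    simp only [Finset.mem_image, Finset.mem_range, Finset.mem_Icc]
    constructor
    · rintro ⟨n, hn, rfl⟩
      omega
    · rintro ⟨h1, h2⟩
      exact ⟨k - 1, by omega, by omega⟩
  · intro x _ y _ h
    simpa using h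

theorem tail_le {a lam τ : ℝ} (ha : 0 < a) (hτ : 0 ≤ τ) {K : ℕ} (h : τ ≤ Real.log ((K : ℝ) + 1) - lam) (z : ℕ) (v : ℝ) :
    ‖FF z a lam v - ∑ k ∈ Kr z K, fk a lam k * cexp (I * (((-Real.log (k : ℝ) : ℝ) : ℂ) * v))‖ ≤
      Real.exp (a * Real.pi ^ 2 / 16) * (Real.exp (-a * τ ^ 2) * Z2) := by
  rw [FF_eq, ← range_sum, ← (gt_summable ha z lam v).sum_add_tsum_nat_add K, add_sub_cancel_left]
  have hb : ∀ n : ℕ, ‖gt z a lam v (n + K)‖ ≤ Real.exp (a * Real.pi ^ 2 / 16) * (Real.exp (-a * τ ^ 2) * (((n : ℝ) + 1) ^ 2)⁻¹) := by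
    intro n
    refine (gt_norm z a lam v (n + K)).trans ?_
    have h1 : amp a lam (n + K + 1) ≤ Real.exp (-a * τ ^ 2) * ((((n + K + 1 : ℕ) : ℝ)) ^ 2)⁻¹ := by
      refine amp_tail ha hτ (h.trans ?_)
      have : Real.log ((K : ℝ) + 1) ≤ Real.log ((n + K + 1 : ℕ) : ℝ) := by
        apply Real.log_le_log (by positivity)
        push_cast
        linarith [Nat.cast_nonneg (α := ℝ) n]
      linarith
    have h2 : ((((n + K + 1 : ℕ) : ℝ)) ^ 2)⁻¹ ≤ (((n : ℝ) + 1) ^ 2)⁻¹ := by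
      apply inv_anti₀ (by positivity)
      push_cast
      have : (0 : ℝ) ≤ K := Nat.cast_nonneg K
      have hn : (0 : ℝ) ≤ n := Nat.cast_nonneg n
      nlinarith
    calc Real.exp (a * Real.pi ^ 2 / 16) * amp a lam (n + K + 1)
        ≤ Real.exp (a * Real.pi ^ 2 / 16) * (Real.exp (-a * τ ^ 2) * ((((n + K + 1 : ℕ) : ℝ)) ^ 2)⁻¹) := by gcongr
      _ ≤ _ := by gcongr
  exact tsum_of_norm_bounded (((Z2_sum.hasSum).mul_left _).mul_left _) hb

/-- the multiples of `p` -/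
theorem mult_le {a lam h : ℝ} (ha : 0 < a) (hh : 0 < h) {N p : ℕ} (hN : 1 ≤ N) (hp : N < p) (S : Finset ℕ)
    (hS : ∀ k ∈ S, p ∣ k ∧ k ≠ p ∧ 1 ≤ k) : ∑ k ∈ S, amp a lam k * ‖Sh h (Real.log p - Real.log k)‖ ≤ 9 / (h * (N : ℝ) ^ 2) := by
  have hp0 : (0 : ℝ) < p := by exact_mod_cast (lt_of_lt_of_le (by omega : 0 < 1) (by omega : 1 ≤ p))
  have hN0 : (0 : ℝ) < N := by exact_mod_cast hN
  have hl2 : (0.6931471803 : ℝ) < Real.log 2 := Real.log_two_gt_d9
  have hterm : ∀ k ∈ S, amp a lam k * ‖Sh h (Real.log p - Real.log k)‖ ≤ 9 / (h * (N : ℝ) ^ 2) * (((k / p : ℕ) : ℝ) ^ 2)⁻¹ := by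
    intro k hk
    obtain ⟨⟨j, rfl⟩, h2, h3⟩ := hS k hk
    have hj0 : j ≠ 0 := by rintro rfl; omega
    have hj1 : j ≠ 1 := by rintro rfl; simp at h2
    have hj : 2 ≤ j := by omega
    have hjr : (2 : ℝ) ≤ j := by exact_mod_cast hj
    have hjp : (0 : ℝ) < j := by linarith
    have e1 : p * j / p = j := Nat.mul_div_cancel_left j (by omega)
    rw [e1]
    have e2 : Real.log p - Real.log ((p * j : ℕ) : ℝ) = -Real.log j := by
      push_cast
      rw [Real.log_mul hp0.ne' hjp.ne']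
      ring
    have hlj : Real.log 2 ≤ Real.log j := Real.log_le_log (by norm_num) hjr
    have h4 : ‖Sh h (Real.log p - Real.log ((p * j : ℕ) : ℝ))‖ ≤ 9 / h := by
      rw [e2]
      have hlp : 0 < Real.log j := by linarith
      have hx : -Real.log (j : ℝ) ≠ 0 := by
        intro h0
        linarith
      refine (Sh_le2 hh hx).trans ?_
      have hx2 : 4 ≤ 9 * (-Real.log (j : ℝ)) ^ 2 := by nlinarith
      rw [div_le_div_iff₀ (mul_pos hh (by rw [neg_sq]; positivity)) hh]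
      nlinarith
    have h5 : amp a lam (p * j) ≤ ((N : ℝ) ^ 2)⁻¹ * ((j : ℝ) ^ 2)⁻¹ := by
      refine (amp_le ha lam _).trans ?_
      rw [← mul_inv]
      apply inv_anti₀ (by positivity)
      push_cast
      rw [← mul_pow]
      have : (N : ℝ) ≤ p := by exact_mod_cast hp.le
      gcongr
    calc amp a lam (p * j) * ‖Sh h (Real.log p - Real.log ((p * j : ℕ) : ℝ))‖
        ≤ (((N : ℝ) ^ 2)⁻¹ * ((j : ℝ) ^ 2)⁻¹) * (9 / h) := mul_le_mul h5 h4 (norm_nonneg _) (by positivity)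
      _ = _ := by field_simp
  refine (Finset.sum_le_sum hterm).trans ?_
  rw [← Finset.mul_sum]
  have hsum : ∑ k ∈ S, (((k / p : ℕ) : ℝ) ^ 2)⁻¹ ≤ 1 := by
    have hinj : Set.InjOn (fun k => k / p) S := by
      intro x hx y hy hxy
      obtain ⟨⟨i, rfl⟩, -, -⟩ := hS x hx
      obtain ⟨⟨j, rfl⟩, -, -⟩ := hS y hy
      have hp1 : 0 < p := by omega
      simp only [Nat.mul_div_cancel_left _ hp1] at hxy
      rw [hxy]
    have e : ∑ k ∈ S, (((k / p : ℕ) : ℝ) ^ 2)⁻¹ = ∑ j ∈ S.image (fun k => k / p), ((j : ℝ) ^ 2)⁻¹ :=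
      (Finset.sum_image (f := fun j : ℕ => ((j : ℝ) ^ 2)⁻¹) hinj).symm
    rw [e]
    obtain ⟨M, hM⟩ : ∃ M : ℕ, ∀ j ∈ S.image (fun k => k / p), j ≤ M := ⟨(S.image (fun k => k / p)).sup id, fun j hj =>
      Finset.le_sup (f := id) hj⟩
    have hsub : S.image (fun k => k / p) ⊆ Finset.Ioc 1 (M + 1) := by
      intro j hj
      rw [Finset.mem_Ioc]
      refine ⟨?_, (hM j hj).trans (by omega)⟩
      rw [Finset.mem_image] at hj
      obtain ⟨k, hk, rfl⟩ := hj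
      obtain ⟨⟨i, rfl⟩, h2, h3⟩ := hS k hk
      have hp1 : 0 < p := by omega
      rw [Nat.mul_div_cancel_left _ hp1]
      have hj0 : i ≠ 0 := by rintro rfl; omega
      have hj1 : i ≠ 1 := by rintro rfl; simp at h2
      omega
    refine (Finset.sum_le_sum_of_subset_of_nonneg hsub fun i _ _ => by positivity).trans ?_
    have := sum_Ioc_inv_sq_le_sub (α := ℝ) (k := 1) (n := M + 1) one_ne_zero (by omega)
    refine this.trans ?_
    have : (0 : ℝ) ≤ (((M + 1 : ℕ) : ℝ))⁻¹ := by positivity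
    simp only [Nat.cast_one, inv_one]
    linarith
  calc 9 / (h * (N : ℝ) ^ 2) * ∑ k ∈ S, (((k / p : ℕ) : ℝ) ^ 2)⁻¹ ≤ 9 / (h * (N : ℝ) ^ 2) * 1 := by gcongr
    _ = _ := mul_one _

end

end Pool.Agent.J4H4.NG
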