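import Pool.Agent.J4H4.NG.G2

set_option autoImplicit false

/-! # Project NG: (G), the correlation with the primes at one point -/

namespace Pool.Agent.J4H4.NG

open Complex MeasureTheory Filter Topology Set

noncomputable section

/-- the primes in `(N, 2N]` -/
def Pr (N : ℕ) : Finset ℕ := (Finset.Ioc N (2 * N)).filter Nat.Prime

/-- phases -/
def th (a lam : ℝ) (p : ℕ) : ℂ := (starRingEnd ℂ) (fk a lam p) / (‖fk a lam p‖ : ℂ)

def om (q : ℕ × ℕ) : ℝ := Real.log q.2 - Real.log q.1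

def J1 (z K N : ℕ) : Finset (ℕ × ℕ) := (Kr z K ×ˢ Pr N).filter (fun q => ¬ q.2 ∣ q.1)

def Aq (a lam h : ℝ) (q : ℕ × ℕ) : ℂ := fk a lam q.1 * th a lam q.2 * Sh h (om q)

def R1 (a lam h : ℝ) (z K N : ℕ) (v : ℝ) : ℂ := ∑ q ∈ J1 z K N, Aq a lam h q * cexp (I * (om q * v))

theorem amp_pos {a lam : ℝ} {k : ℕ} (hk : 1 ≤ k) : 0 < amp a lam k := by
  unfold amp
  have : (0 : ℝ) < k := by exact_mod_cast hk
  positivity

theorem fk_pos {a lam : ℝ} {k : ℕ} (hk : 1 ≤ k) : 0 < ‖fk a lam k‖ := by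
  rw [fk_norm]
  exact mul_pos (Real.exp_pos _) (amp_pos hk)

theorem th_norm {a lam : ℝ} {p : ℕ} (hp : 1 ≤ p) : ‖th a lam p‖ = 1 := by
  unfold th
  rw [norm_div, Complex.norm_conj, Complex.norm_real, norm_norm, div_self (fk_pos hp).ne']

theorem th_mul {a lam : ℝ} {p : ℕ} (hp : 1 ≤ p) : fk a lam p * th a lam p = (‖fk a lam p‖ : ℂ) := by
  unfold th
  have h0 : (‖fk a lam p‖ : ℂ) ≠ 0 := by exact_mod_cast (fk_pos hp).ne'
  rw [← mul_div_assoc, Complex.mul_conj, div_eq_iff h0, Complex.normSq_eq_norm_sq]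
  push_cast
  ring

theorem mem_Pr {N p : ℕ} (h : p ∈ Pr N) : N < p ∧ p ≤ 2 * N ∧ p.Prime := by
  unfold Pr at h
  rw [Finset.mem_filter, Finset.mem_Ioc] at h
  exact ⟨h.1.1, h.1.2, h.2⟩

theorem mem_Kr {z K k : ℕ} : k ∈ Kr z K ↔ (1 ≤ k ∧ k ≤ K) ∧ Rough z k := by
  classical
  unfold Kr
  rw [Finset.mem_filter, Finset.mem_Icc]

theorem Pr_rough {z N p : ℕ} (hz : z ≤ N) (h : p ∈ Pr N) : Rough z p := by
  intro q hq hqz hd
  obtain ⟨h1, -, h3⟩ := mem_Pr h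
  rcases (Nat.dvd_prime h3).1 hd with h4 | h4
  · exact hq.one_lt.ne' h4
  · omega

theorem cexp_one (x v : ℝ) : ‖cexp (I * ((x : ℂ) * v))‖ = 1 := by
  rw [← Complex.ofReal_mul, mul_comm, Complex.norm_exp_ofReal_mul_I]

/-- decomposition of the double average -/
theorem decomp (a lam h : ℝ) (z K N : ℕ) (hz : z ≤ N) (hK : 2 * N ≤ K) (v : ℝ) :
    ∑ q ∈ Kr z K ×ˢ Pr N, Aq a lam h q * cexp (I * (om q * v)) =
      (∑ p ∈ Pr N, Aq a lam h (p, p)) +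
      (∑ p ∈ Pr N, ∑ k ∈ ((Kr z K).filter (fun k => p ∣ k)).erase p, Aq a lam h (k, p) * cexp (I * (om (k, p) * v))) +
      R1 a lam h z K N v := by
  unfold R1 J1
  rw [← Finset.sum_filter_add_sum_filter_not (Kr z K ×ˢ Pr N) (fun q => q.2 ∣ q.1)]
  congr 1
  rw [Finset.sum_filter, Finset.sum_product_right, ← Finset.sum_add_distrib]
  refine Finset.sum_congr rfl fun p hp => ?_
  rw [← Finset.sum_filter]
  have hmem : p ∈ (Kr z K).filter (fun k => p ∣ k) := by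
    rw [Finset.mem_filter, mem_Kr]
    obtain ⟨h1, h2, h3⟩ := mem_Pr hp
    exact ⟨⟨⟨h3.one_lt.le, h2.trans hK⟩, Pr_rough hz hp⟩, dvd_refl p⟩
  rw [← Finset.add_sum_erase _ _ hmem]
  congr 1
  unfold om
  simp

theorem diag_val {a lam h : ℝ} (hh : 0 < h) {N : ℕ} : ∑ p ∈ Pr N, Aq a lam h (p, p) =
    ((h * ∑ p ∈ Pr N, ‖fk a lam p‖ : ℝ) : ℂ) := by
  push_cast
  rw [Finset.mul_sum]
  refine Finset.sum_congr rfl fun p hp => ?_
  unfold Aq om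
  simp only [sub_self]
  rw [Sh_zero hh, th_mul (mem_Pr hp).2.2.one_lt.le]
  ring

theorem mult_sum {a lam h : ℝ} (ha : 0 < a) (hh : 0 < h) {N : ℕ} (hN : 1 ≤ N) (z K : ℕ) (v : ℝ) :
    ‖∑ p ∈ Pr N, ∑ k ∈ ((Kr z K).filter (fun k => p ∣ k)).erase p, Aq a lam h (k, p) * cexp (I * (om (k, p) * v))‖ ≤
      (Pr N).card * (Real.exp (a * Real.pi ^ 2 / 16) * (9 / (h * (N : ℝ) ^ 2))) := by
  refine (norm_sum_le _ _).trans ?_
  rw [← nsmul_eq_mul]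
  refine Finset.sum_le_card_nsmul _ _ _ fun p hp => ?_
  obtain ⟨h1, h2, h3⟩ := mem_Pr hp
  refine (norm_sum_le _ _).trans ?_
  have h4 : ∀ k ∈ ((Kr z K).filter (fun k => p ∣ k)).erase p, ‖Aq a lam h (k, p) * cexp (I * (om (k, p) * v))‖ =
      Real.exp (a * Real.pi ^ 2 / 16) * (amp a lam k * ‖Sh h (Real.log p - Real.log k)‖) := by
    intro k _
    rw [norm_mul, cexp_one, mul_one]
    unfold Aq om
    rw [norm_mul, norm_mul, fk_norm, th_norm h3.one_lt.le]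
    ring
  rw [Finset.sum_congr rfl h4, ← Finset.mul_sum]
  refine mul_le_mul_of_nonneg_left ?_ (Real.exp_pos _).le
  refine mult_le ha hh hN h1 _ fun k hk => ?_
  rw [Finset.mem_erase, Finset.mem_filter, mem_Kr] at hk
  exact ⟨hk.2.2, hk.1, hk.2.1.1.1⟩

/-- the product -/
theorem prod_val (a lam : ℝ) (z K N : ℕ) (y : ℝ) :
    ∑ q ∈ Kr z K ×ˢ Pr N, (fk a lam q.1 * th a lam q.2) * cexp (I * (om q * y)) =
      (∑ k ∈ Kr z K, fk a lam k * cexp (I * (((-Real.log (k : ℝ) : ℝ) : ℂ) * y))) *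
        ∑ p ∈ Pr N, th a lam p * cexp (I * (((Real.log (p : ℝ) : ℝ) : ℂ) * y)) := by
  rw [Finset.sum_product, Finset.sum_mul_sum]
  refine Finset.sum_congr rfl fun k _ => Finset.sum_congr rfl fun p _ => ?_
  unfold om
  have : cexp (I * (((Real.log (p : ℝ) - Real.log (k : ℝ) : ℝ) : ℂ) * y)) =
      cexp (I * (((-Real.log (k : ℝ) : ℝ) : ℂ) * y)) * cexp (I * (((Real.log (p : ℝ) : ℝ) : ℂ) * y)) := by
    rw [← Complex.exp_add]
    congr 1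
    push_cast
    ring
  rw [this]
  ring

theorem th_sum_le (a lam : ℝ) (N : ℕ) (y : ℝ) :
    ‖∑ p ∈ Pr N, th a lam p * cexp (I * (((Real.log (p : ℝ) : ℝ) : ℂ) * y))‖ ≤ (Pr N).card := by
  refine (norm_sum_le _ _).trans ?_
  have : ∑ p ∈ Pr N, ‖th a lam p * cexp (I * (((Real.log (p : ℝ) : ℝ) : ℂ) * y))‖ ≤ (Pr N).card • (1 : ℝ) := by
    refine Finset.sum_le_card_nsmul _ _ _ fun p hp => ?_
    rw [norm_mul, cexp_one, th_norm (mem_Pr hp).2.2.one_lt.le, mul_one]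
  simpa using this

/-- lower bound at a bad point -/
theorem R1_lower {a lam h E τ : ℝ} (ha : 0 < a) (hh : 0 < h) {z K N : ℕ} (hN : 1 ≤ N) (hz : z ≤ N) (hK : 2 * N ≤ K)
    (hτ : 0 ≤ τ) (hτK : τ ≤ Real.log ((K : ℝ) + 1) - lam) {v : ℝ}
    (hF : ∀ u : ℝ, 0 ≤ u → u ≤ 2 * h → ‖FF z a lam (v + u)‖ ≤ E) :
    h * ∑ p ∈ Pr N, ‖fk a lam p‖ - (Pr N).card * (Real.exp (a * Real.pi ^ 2 / 16) * (9 / (h * (N : ℝ) ^ 2))) -
      h * ((E + Real.exp (a * Real.pi ^ 2 / 16) * (Real.exp (-a * τ ^ 2) * Z2)) * (Pr N).card) ≤ ‖R1 a lam h z K N v‖ := by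
  have h1 := dav_sum (Kr z K ×ˢ Pr N) om (fun q => fk a lam q.1 * th a lam q.2) h v
  have h2 : ‖dav h (fun y => ∑ q ∈ Kr z K ×ˢ Pr N, (fk a lam q.1 * th a lam q.2) * cexp (I * (om q * y))) v‖ ≤
      h * ((E + Real.exp (a * Real.pi ^ 2 / 16) * (Real.exp (-a * τ ^ 2) * Z2)) * (Pr N).card) := by
    refine dav_le hh fun u hu0 hu1 => ?_
    rw [prod_val, norm_mul]
    refine mul_le_mul ?_ (th_sum_le _ _ _ _) (norm_nonneg _) ?_
    · have h3 := tail_le ha hτ hτK z (v + u)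
      have h4 := hF u hu0 hu1
      have h5 : ‖∑ k ∈ Kr z K, fk a lam k * cexp (I * (((-Real.log (k : ℝ) : ℝ) : ℂ) * ((v + u : ℝ) : ℂ)))‖ ≤
          ‖FF z a lam (v + u)‖ + ‖FF z a lam (v + u) -
            ∑ k ∈ Kr z K, fk a lam k * cexp (I * (((-Real.log (k : ℝ) : ℝ) : ℂ) * ((v + u : ℝ) : ℂ)))‖ := by
        have := norm_sub_le (FF z a lam (v + u)) (FF z a lam (v + u) -
            ∑ k ∈ Kr z K, fk a lam k * cexp (I * (((-Real.log (k : ℝ) : ℝ) : ℂ) * ((v + u : ℝ) : ℂ))))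
        rwa [sub_sub_cancel] at this
      linarith
    · have h4 := (norm_nonneg _).trans (hF u hu0 hu1)
      have := Z2_nonneg
      positivity
  have h3 := decomp a lam h z K N hz hK v
  have h4 : ∑ q ∈ Kr z K ×ˢ Pr N, Aq a lam h q * cexp (I * (om q * v)) =
      dav h (fun y => ∑ q ∈ Kr z K ×ˢ Pr N, (fk a lam q.1 * th a lam q.2) * cexp (I * (om q * y))) v := by
    rw [h1]
    rfl
  rw [h4, diag_val hh] at h3
  have h5 := mult_sum ha hh hN z K v (lam := lam)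
  have h6 : 0 ≤ h * ∑ p ∈ Pr N, ‖fk a lam p‖ := mul_nonneg hh.le (Finset.sum_nonneg fun _ _ => norm_nonneg _)
  have h7 : ‖((h * ∑ p ∈ Pr N, ‖fk a lam p‖ : ℝ) : ℂ)‖ = h * ∑ p ∈ Pr N, ‖fk a lam p‖ := by
    rw [Complex.norm_real, Real.norm_eq_abs, abs_of_nonneg h6]
  have h8 : ((h * ∑ p ∈ Pr N, ‖fk a lam p‖ : ℝ) : ℂ) =
      dav h (fun y => ∑ q ∈ Kr z K ×ˢ Pr N, (fk a lam q.1 * th a lam q.2) * cexp (I * (om q * y))) v -
      (∑ p ∈ Pr N, ∑ k ∈ ((Kr z K).filter (fun k => p ∣ k)).erase p, Aq a lam h (k, p) * cexp (I * (om (k, p) * v))) -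
      R1 a lam h z K N v := by
    rw [h3]
    ring
  have h9 := norm_sub_le (dav h (fun y => ∑ q ∈ Kr z K ×ˢ Pr N, (fk a lam q.1 * th a lam q.2) * cexp (I * (om q * y))) v -
      (∑ p ∈ Pr N, ∑ k ∈ ((Kr z K).filter (fun k => p ∣ k)).erase p, Aq a lam h (k, p) * cexp (I * (om (k, p) * v))))
      (R1 a lam h z K N v)
  rw [← h8, h7] at h9
  have h10 := norm_sub_le (dav h (fun y => ∑ q ∈ Kr z K ×ˢ Pr N, (fk a lam q.1 * th a lam q.2) * cexp (I * (om q * y))) v)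
    (∑ p ∈ Pr N, ∑ k ∈ ((Kr z K).filter (fun k => p ∣ k)).erase p, Aq a lam h (k, p) * cexp (I * (om (k, p) * v)))
  linarith

/-- spacing -/
theorem om_gap {z K N : ℕ} {B : ℝ} (hB : ((2 * N * K : ℕ) : ℝ) ≤ B) : ∀ i ∈ J1 z K N, ∀ j ∈ J1 z K N, i ≠ j →
    1 / B ≤ |om i - om j| := by
  rintro ⟨k, p⟩ hi ⟨k', p'⟩ hj hne
  unfold J1 at hi hj
  rw [Finset.mem_filter, Finset.mem_product, mem_Kr] at hi hj
  obtain ⟨⟨⟨⟨hk1, hk2⟩, -⟩, hp⟩, hnd⟩ := hi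
  obtain ⟨⟨⟨⟨hk1', hk2'⟩, -⟩, hp'⟩, hnd'⟩ := hj
  simp only at *
  obtain ⟨a1, a2, a3⟩ := mem_Pr hp
  obtain ⟨b1, b2, b3⟩ := mem_Pr hp'
  have hm : 1 ≤ p * k' := Nat.mul_pos a3.pos hk1'
  have hn : 1 ≤ p' * k := Nat.mul_pos b3.pos hk1
  have hneq : p * k' ≠ p' * k := by
    intro h
    have h1 : p ∣ p' * k := ⟨k', h.symm⟩
    rcases a3.dvd_mul.1 h1 with h2 | h2
    · rcases (Nat.dvd_prime b3).1 h2 with h3 | h3
      · exact a3.one_lt.ne' h3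
      · subst h3
        have : k' = k := Nat.eq_of_mul_eq_mul_left a3.pos h
        subst this
        exact hne rfl
    · exact hnd h2
  have hmB : ((p * k' : ℕ) : ℝ) ≤ B := le_trans (by exact_mod_cast Nat.mul_le_mul a2 hk2') hB
  have hnB : ((p' * k : ℕ) : ℝ) ≤ B := le_trans (by exact_mod_cast Nat.mul_le_mul b2 hk2) hB
  have := log_gap hm hn hneq hmB hnB
  refine this.trans (le_of_eq ?_)
  unfold om
  simp only
  have p0 : (p : ℝ) ≠ 0 := by exact_mod_cast a3.ne_zero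
  have p0' : (p' : ℝ) ≠ 0 := by exact_mod_cast b3.ne_zero
  have k0 : (k : ℝ) ≠ 0 := by exact_mod_cast (by omega : k ≠ 0)
  have k0' : (k' : ℝ) ≠ 0 := by exact_mod_cast (by omega : k' ≠ 0)
  push_cast
  rw [Real.log_mul p0 k0', Real.log_mul p0' k0]
  congr 1
  ring

end

end Pool.Agent.J4H4.NG
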