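import Pool.Agent.J4H4.NG.G3

set_option autoImplicit false

/-! # Project NG: (G), the measure of the bad set -/

namespace Pool.Agent.J4H4.NG

open Complex MeasureTheory Filter Topology Set

noncomputable section

theorem R1_cont (a lam h : ℝ) (z K N : ℕ) : Continuous (fun v : ℝ => R1 a lam h z K N v) := by
  unfold R1
  fun_prop

/-- Chebyshev's inequality -/
theorem cheb {T η X : ℝ} (hT : 0 < T) (hη : 0 < η) {f : ℝ → ℂ} (hf : Continuous f)
    (hX : ∫ v in T..2 * T, ‖f v‖ ^ 2 ≤ X) :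
    volume {v : ℝ | (T ≤ v ∧ v ≤ 2 * T) ∧ η ≤ ‖f v‖} ≤ ENNReal.ofReal (X / η ^ 2) := by
  have hle : T ≤ 2 * T := by linarith
  rw [intervalIntegral.integral_of_le hle] at hX
  have hint : Integrable (fun v => ‖f v‖ ^ 2) (volume.restrict (Ioc T (2 * T))) := by
    have : Continuous (fun v => ‖f v‖ ^ 2) := by fun_prop
    exact (this.integrableOn_Icc (a := T) (b := 2 * T)).mono_set Ioc_subset_Icc_self
  have h1 := mul_meas_ge_le_integral_of_nonneg (μ := volume.restrict (Ioc T (2 * T))) (f := fun v => ‖f v‖ ^ 2)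
    (Eventually.of_forall fun v => sq_nonneg _) hint (η ^ 2)
  have h2 := h1.trans hX
  have hmeas : MeasurableSet {v : ℝ | η ^ 2 ≤ ‖f v‖ ^ 2} := by
    apply measurableSet_le measurable_const
    exact (by fun_prop : Continuous (fun v => ‖f v‖ ^ 2)).measurable
  have hfin : volume ({v : ℝ | η ^ 2 ≤ ‖f v‖ ^ 2} ∩ Ioc T (2 * T)) ≠ ⊤ := by
    refine ne_top_of_le_ne_top ?_ (measure_mono inter_subset_right)
    rw [Real.volume_Ioc]
    exact ENNReal.ofReal_ne_top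
  have h3 : (volume ({v : ℝ | η ^ 2 ≤ ‖f v‖ ^ 2} ∩ Ioc T (2 * T))).toReal ≤ X / η ^ 2 := by
    rw [le_div_iff₀ (by positivity), mul_comm]
    simp only [Measure.real] at h2
    rwa [Measure.restrict_apply hmeas] at h2
  have hsub : {v : ℝ | (T ≤ v ∧ v ≤ 2 * T) ∧ η ≤ ‖f v‖} ⊆ ({v : ℝ | η ^ 2 ≤ ‖f v‖ ^ 2} ∩ Ioc T (2 * T)) ∪ {T} := by
    rintro v ⟨⟨h4, h5⟩, h6⟩
    rcases h4.eq_or_lt with h7 | h7
    · right; exact h7.symm
    · left
      exact ⟨pow_le_pow_left₀ hη.le h6 2, h7, h5⟩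
  refine (measure_mono hsub).trans ((measure_union_le _ _).trans ?_)
  rw [Real.volume_singleton, add_zero, ← ENNReal.ofReal_toReal hfin]
  exact ENNReal.ofReal_le_ofReal h3

theorem Sh_wt {h : ℝ} (hh : 0 < h) {k p : ℕ} (hk : 1 ≤ k) (hp : 1 ≤ p) (hne : k ≠ p) :
    ‖Sh h (om (k, p))‖ ≤ wt (2 * h) k p := by
  have hk0 : (0 : ℝ) < k := by exact_mod_cast hk
  have hp0 : (0 : ℝ) < p := by exact_mod_cast hp
  have e : (Real.log ((k : ℝ) / p)) ^ 2 = (om (k, p)) ^ 2 := by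
    unfold om
    rw [Real.log_div hk0.ne' hp0.ne']
    ring
  have hx : om (k, p) ≠ 0 := by
    unfold om
    intro h0
    have h1 : Real.log (p : ℝ) = Real.log (k : ℝ) := by simpa using sub_eq_zero.1 h0
    have h2 := Real.log_injOn_pos (Set.mem_Ioi.2 hp0) (Set.mem_Ioi.2 hk0) h1
    exact hne (by exact_mod_cast h2.symm)
  unfold wt
  rw [e]
  refine le_min ?_ ?_
  · have := Sh_le hh (om (k, p))
    linarith
  · refine (Sh_le2 hh hx).trans (le_of_eq ?_)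
    have : om (k, p) ^ 2 ≠ 0 := pow_ne_zero 2 hx
    field_simp
    norm_num

theorem sum_sq_le {a lam h ε : ℝ} (hh : 0 < h) {z K N : ℕ}
    (hNS : ∀ p ∈ Pr N, ∀ S : Finset ℕ, (∀ k ∈ S, Rough z k ∧ k ≠ p ∧ 1 ≤ k) →
      ∑ k ∈ S, (amp a lam k) ^ 2 * (wt (2 * h) k p) ^ 2 ≤ ε * (2 * h) / (N : ℝ) ^ 3) :
    ∑ q ∈ J1 z K N, ‖Aq a lam h q‖ ^ 2 ≤
      (Real.exp (a * Real.pi ^ 2 / 16)) ^ 2 * ((Pr N).card * (ε * (2 * h) / (N : ℝ) ^ 3)) := by
  unfold J1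
  rw [Finset.sum_filter, Finset.sum_product_right]
  have h1 : ∀ p ∈ Pr N, ∑ k ∈ Kr z K, (if ¬ (k, p).2 ∣ (k, p).1 then ‖Aq a lam h (k, p)‖ ^ 2 else 0) ≤
      (Real.exp (a * Real.pi ^ 2 / 16)) ^ 2 * (ε * (2 * h) / (N : ℝ) ^ 3) := by
    intro p hp
    obtain ⟨p1, p2, p3⟩ := mem_Pr hp
    rw [← Finset.sum_filter]
    have h2 := hNS p hp ((Kr z K).filter (fun k => ¬ p ∣ k)) (by
      intro k hk
      rw [Finset.mem_filter, mem_Kr] at hk
      exact ⟨hk.1.2, fun h => hk.2 (h ▸ dvd_refl _), hk.1.1.1⟩)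
    refine le_trans ?_ (mul_le_mul_of_nonneg_left h2 (by positivity))
    rw [Finset.mul_sum]
    refine Finset.sum_le_sum fun k hk => ?_
    rw [Finset.mem_filter, mem_Kr] at hk
    have h3 := Sh_wt hh hk.1.1.1 p3.one_lt.le (fun h => hk.2 (h ▸ dvd_refl _))
    unfold Aq
    rw [norm_mul, norm_mul, fk_norm, th_norm p3.one_lt.le, mul_one, mul_pow, mul_pow]
    have h4 := amp_nonneg a lam k
    have h5 : ‖Sh h (om (k, p))‖ ^ 2 ≤ (wt (2 * h) k p) ^ 2 := pow_le_pow_left₀ (norm_nonneg _) h3 2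
    rw [mul_assoc]
    gcongr
  refine (Finset.sum_le_card_nsmul _ _ _ h1).trans (le_of_eq ?_)
  rw [nsmul_eq_mul]
  ring

theorem sum_le {a lam h : ℝ} (ha : 0 < a) (hh : 0 < h) {z K N : ℕ} :
    ∑ q ∈ J1 z K N, ‖Aq a lam h q‖ ≤ ((2 * N * K : ℕ) : ℝ) * (Real.exp (a * Real.pi ^ 2 / 16) * h) := by
  have h1 : ∀ q ∈ J1 z K N, ‖Aq a lam h q‖ ≤ Real.exp (a * Real.pi ^ 2 / 16) * h := by
    rintro ⟨k, p⟩ hq
    unfold J1 at hq
    rw [Finset.mem_filter, Finset.mem_product, mem_Kr] at hq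
    obtain ⟨⟨⟨⟨hk1, hk2⟩, -⟩, hp⟩, -⟩ := hq
    simp only at *
    unfold Aq
    rw [norm_mul, norm_mul, fk_norm, th_norm (mem_Pr hp).2.2.one_lt.le, mul_one]
    have h2 : amp a lam k ≤ 1 := by
      refine (amp_le ha lam k).trans ?_
      have : (1 : ℝ) ≤ k := by exact_mod_cast hk1
      apply inv_le_one_of_one_le₀
      nlinarith
    calc Real.exp (a * Real.pi ^ 2 / 16) * amp a lam k * ‖Sh h (om (k, p))‖
        ≤ Real.exp (a * Real.pi ^ 2 / 16) * 1 * h := by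
          have := Sh_le hh (om (k, p))
          gcongr
      _ = _ := by ring
  refine (Finset.sum_le_card_nsmul _ _ _ h1).trans ?_
  rw [nsmul_eq_mul]
  have hcard : (J1 z K N).card ≤ 2 * N * K := by
    unfold J1
    refine (Finset.card_filter_le _ _).trans ?_
    rw [Finset.card_product]
    have c1 : (Kr z K).card ≤ K := by
      classical
      unfold Kr
      refine (Finset.card_filter_le _ _).trans ?_
      simp
    have c2 : (Pr N).card ≤ N := by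
      unfold Pr
      refine (Finset.card_filter_le _ _).trans ?_
      rw [Nat.card_Ioc]
      omega
    calc (Kr z K).card * (Pr N).card ≤ K * N := Nat.mul_le_mul c1 c2
      _ ≤ 2 * N * K := by nlinarith
  have : ((J1 z K N).card : ℝ) ≤ ((2 * N * K : ℕ) : ℝ) := by exact_mod_cast hcard
  gcongr

/-- the measure of the set where the rest is large -/
theorem vol_le {a lam h ε T B η : ℝ} (ha : 0 < a) (hh : 0 < h) (hT : 1 ≤ T) (hη : 0 < η) (hMS : S_MS) {z K N : ℕ} (hB0 : 0 < B)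
    (hB : ((2 * N * K : ℕ) : ℝ) ≤ B)
    (hNS : ∀ p ∈ Pr N, ∀ S : Finset ℕ, (∀ k ∈ S, Rough z k ∧ k ≠ p ∧ 1 ≤ k) →
      ∑ k ∈ S, (amp a lam k) ^ 2 * (wt (2 * h) k p) ^ 2 ≤ ε * (2 * h) / (N : ℝ) ^ 3) :
    volume {v : ℝ | (T ≤ v ∧ v ≤ 2 * T) ∧ η ≤ ‖R1 a lam h z K N v‖} ≤
      ENNReal.ofReal (3 * T * ((Real.exp (a * Real.pi ^ 2 / 16)) ^ 2 * ((Pr N).card * (ε * (2 * h) / (N : ℝ) ^ 3)) +
        Real.exp (-(T * (1 / B)) ^ 2 / 4) * (B * (Real.exp (a * Real.pi ^ 2 / 16) * h)) ^ 2) / η ^ 2) := by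
  have hT0 : 0 < T := by linarith
  refine cheb hT0 hη (R1_cont a lam h z K N) ?_
  have h1 := hMS (J1 z K N) om (Aq a lam h) T (1 / B) hT (by positivity) (om_gap hB)
  refine h1.trans ?_
  have h2 := sum_sq_le (K := K) hh hNS
  have h3 := sum_le (lam := lam) (z := z) (K := K) (N := N) ha hh
  have h4 : (∑ q ∈ J1 z K N, ‖Aq a lam h q‖) ^ 2 ≤ (B * (Real.exp (a * Real.pi ^ 2 / 16) * h)) ^ 2 := by
    apply pow_le_pow_left₀ (Finset.sum_nonneg fun _ _ => norm_nonneg _)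
    refine h3.trans ?_
    gcongr
  gcongr

end

end Pool.Agent.J4H4.NG
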