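import Pool.Agent.J4H4.NG.G4

set_option autoImplicit false

/-! # Project NG: (G), the choice of parameters -/

namespace Pool.Agent.J4H4.NG

open Complex MeasureTheory Filter Topology Set

noncomputable section

/-- the sifted series from the bad set -/
theorem FF_le {a lam y E : ℝ} (ha : 0 < a) (hMOB : S_MOB) {z P : ℕ} (hP : primorial z ≤ P)
    (h : ∀ b : ℕ, 1 ≤ b → b ≤ P → ‖DD a (lam - Real.log b) y‖ ≤ E) : ‖FF z a lam y‖ ≤ P * E := by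
  have h1 := hMOB a lam y z ha
  have h2 : FF z a lam y = ∑ b ∈ (primorial z).divisors, (ArithmeticFunction.moebius b : ℂ) * (b : ℂ) ^ (-(2 : ℂ) - I * y) *
      DD a (lam - Real.log b) y := by
    rw [h1]; rfl
  have hpos : 0 < primorial z := primorial_pos z
  rw [h2]
  refine (norm_sum_le _ _).trans ?_
  have h3 : ∀ b ∈ (primorial z).divisors, ‖(ArithmeticFunction.moebius b : ℂ) * (b : ℂ) ^ (-(2 : ℂ) - I * y) *
      DD a (lam - Real.log b) y‖ ≤ E := by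
    intro b hb
    have hb1 : 1 ≤ b := Nat.pos_of_mem_divisors hb
    have hb2 : b ≤ P := (Nat.divisor_le hb).trans hP
    have h4 := h b hb1 hb2
    have h5 : ‖(ArithmeticFunction.moebius b : ℂ)‖ ≤ 1 := by
      rw [Complex.norm_intCast]
      exact_mod_cast ArithmeticFunction.abs_moebius_le_one
    have h6 : ‖(b : ℂ) ^ (-(2 : ℂ) - I * y)‖ ≤ 1 := by
      rw [Complex.norm_natCast_cpow_of_pos (by omega)]
      have e : (-(2 : ℂ) - I * y).re = -2 := by simp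
      rw [e]
      exact Real.rpow_le_one_of_one_le_of_nonpos (by exact_mod_cast hb1) (by norm_num)
    rw [norm_mul, norm_mul]
    calc ‖(ArithmeticFunction.moebius b : ℂ)‖ * ‖(b : ℂ) ^ (-(2 : ℂ) - I * y)‖ * ‖DD a (lam - Real.log b) y‖
        ≤ 1 * 1 * E := by gcongr
      _ = E := by ring
  refine (Finset.sum_le_card_nsmul _ _ _ h3).trans ?_
  rw [nsmul_eq_mul]
  have hE : 0 ≤ E := (norm_nonneg _).trans (h 1 le_rfl (by omega))
  have h7 : ((primorial z).divisors.card : ℝ) ≤ P := by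
    have : (primorial z).divisors.card ≤ primorial z := Nat.card_divisors_le_self _
    exact_mod_cast this.trans hP
  gcongr

theorem fk_lower {a lam : ℝ} (ha : 0 < a) {N p : ℕ} (hN : 1 ≤ N) (hN1 : (N : ℝ) ≤ Real.exp lam) (hN2 : Real.exp lam / 2 ≤ N)
    (hp : p ∈ Pr N) : Real.exp (-a) / 4 * Real.exp (-2 * lam) ≤ ‖fk a lam p‖ := by
  obtain ⟨h1, h2, h3⟩ := mem_Pr hp
  have hN0 : (0 : ℝ) < N := by exact_mod_cast hN
  have hp1 : (N : ℝ) ≤ p := by exact_mod_cast h1.le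
  have hp2 : (p : ℝ) ≤ 2 * N := by exact_mod_cast h2
  have hp0 : (0 : ℝ) < p := by linarith
  have hl2 : Real.log 2 < 0.6931471808 := Real.log_two_lt_d9
  have hle : Real.log p ≤ Real.log 2 + lam := by
    have h4 : Real.log p ≤ Real.log (2 * Real.exp lam) := Real.log_le_log hp0 (by linarith)
    rw [Real.log_mul (by norm_num) (Real.exp_ne_zero _), Real.log_exp] at h4
    exact h4
  have hge : lam - Real.log 2 ≤ Real.log p := by
    have h4 : Real.log (Real.exp lam / 2) ≤ Real.log p := Real.log_le_log (by positivity) (by linarith)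
    rw [Real.log_div (Real.exp_ne_zero _) (by norm_num), Real.log_exp] at h4
    exact h4
  rw [fk_norm]
  unfold amp
  have e1 : 1 ≤ Real.exp (a * Real.pi ^ 2 / 16) := Real.one_le_exp (by positivity)
  have e2 : Real.exp (-a) ≤ Real.exp (-a * (Real.log p - lam) ^ 2) := by
    apply Real.exp_le_exp.2
    have : (Real.log p - lam) ^ 2 ≤ 1 := by
      rw [sq_le_one_iff_abs_le_one, abs_le]
      constructor <;> linarith
    nlinarith
  have e3 : Real.exp (-2 * lam) / 4 ≤ ((p : ℝ) ^ 2)⁻¹ := by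
    have : Real.exp (-2 * lam) / 4 = ((2 * Real.exp lam) ^ 2)⁻¹ := by
      rw [mul_pow, ← Real.exp_nat_mul, mul_inv, ← Real.exp_neg]
      push_cast
      ring_nf
    rw [this]
    apply inv_anti₀ (by positivity)
    apply pow_le_pow_left₀ hp0.le
    linarith
  calc Real.exp (-a) / 4 * Real.exp (-2 * lam) = 1 * ((Real.exp (-2 * lam) / 4) * Real.exp (-a)) := by ring
    _ ≤ Real.exp (a * Real.pi ^ 2 / 16) * (((p : ℝ) ^ 2)⁻¹ * Real.exp (-a * (Real.log p - lam) ^ 2)) := by gcongr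

theorem sum_lower {a lam : ℝ} (ha : 0 < a) {N : ℕ} (hN : 1 ≤ N) (hN1 : (N : ℝ) ≤ Real.exp lam) (hN2 : Real.exp lam / 2 ≤ N) :
    (Pr N).card * (Real.exp (-a) / 4 * Real.exp (-2 * lam)) ≤ ∑ p ∈ Pr N, ‖fk a lam p‖ := by
  rw [← nsmul_eq_mul]
  exact Finset.card_nsmul_le_sum _ _ _ fun p hp => fk_lower ha hN hN1 hN2 hp

/-- the estimates for the two parts of the bound for the measure -/
theorem calc1 {A c T ε κ c1 δ h n N L ll x : ℝ} (hA : 0 < A) (hc : 0 < c) (hT : 0 < T) (hκ : 0 < κ) (hc1 : 0 < c1) (hδ : 0 < δ)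
    (hε : ε = κ * c ^ 2 * c1 * δ / (768 * A ^ 2)) (hh : h = κ * L / 2) (hL : 0 < L) (hN : 2 ≤ N) (hll0 : 0 < ll) (hll : ll ≤ L / 2)
    (hn : c1 * N / ll ≤ n) (hx : 0 < x) (hxN : x⁻¹ ≤ 2 * N) :
    3 * T * (A ^ 2 * (n * (ε * (2 * h) / N ^ 3))) / (1 / 2 * h * n * c * x ^ 2) ^ 2 ≤ δ * T / 2 := by
  have hN0 : 0 < N := by linarith
  have hn0 : 0 < n := lt_of_lt_of_le (by positivity) hn
  have hh0 : 0 < h := by rw [hh]; positivity
  have hε0 : 0 < ε := by rw [hε]; positivity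
  have e1 : 3 * T * (A ^ 2 * (n * (ε * (2 * h) / N ^ 3))) / (1 / 2 * h * n * c * x ^ 2) ^ 2 =
      24 * T * A ^ 2 * ε / c ^ 2 * ((x⁻¹) ^ 4 / (N ^ 3 * (h * n))) := by
    field_simp
    norm_num
  have h1 : (x⁻¹) ^ 4 ≤ 16 * N ^ 4 := by
    calc (x⁻¹) ^ 4 ≤ (2 * N) ^ 4 := by gcongr
      _ = 16 * N ^ 4 := by ring
  have h2 : κ * c1 * N ≤ h * n := by
    calc κ * c1 * N = (κ * ll) * (c1 * N / ll) := by field_simp
      _ ≤ h * n := by
        apply mul_le_mul _ hn (by positivity) hh0.le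
        rw [hh]
        nlinarith
  have h3 : (x⁻¹) ^ 4 / (N ^ 3 * (h * n)) ≤ 16 / (κ * c1) := by
    calc (x⁻¹) ^ 4 / (N ^ 3 * (h * n)) ≤ 16 * N ^ 4 / (N ^ 3 * (κ * c1 * N)) := by gcongr
      _ = 16 / (κ * c1) := by field_simp
  rw [e1]
  calc 24 * T * A ^ 2 * ε / c ^ 2 * ((x⁻¹) ^ 4 / (N ^ 3 * (h * n))) ≤ 24 * T * A ^ 2 * ε / c ^ 2 * (16 / (κ * c1)) := by gcongr
    _ = δ * T / 2 := by
      rw [hε]
      field_simp
      norm_num

theorem calc2 {A c T δ h n x B Q : ℝ} (hA : 0 < A) (hc : 0 < c) (hT : 0 < T) (hh : 0 < h) (hn : 1 ≤ n) (hx : 0 < x)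
    (hx2 : (x⁻¹) ^ 2 ≤ T) (hB0 : 0 < B) (hB : B ≤ 2 * T) (hQ0 : 0 ≤ Q) (hQ : T ^ 4 * Q ≤ δ * c ^ 2 / (96 * A ^ 2)) :
    3 * T * (Q * (B * (A * h)) ^ 2) / (1 / 2 * h * n * c * x ^ 2) ^ 2 ≤ δ * T / 2 := by
  have hn0 : 0 < n := by linarith
  have e1 : 3 * T * (Q * (B * (A * h)) ^ 2) / (1 / 2 * h * n * c * x ^ 2) ^ 2 =
      12 * T * A ^ 2 / c ^ 2 * (Q * B ^ 2 * ((x⁻¹) ^ 2) ^ 2 / n ^ 2) := by
    field_simp
    ring
  have h1 : Q * B ^ 2 * ((x⁻¹) ^ 2) ^ 2 / n ^ 2 ≤ 4 * (T ^ 4 * Q) := by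
    calc Q * B ^ 2 * ((x⁻¹) ^ 2) ^ 2 / n ^ 2 ≤ Q * (2 * T) ^ 2 * T ^ 2 / 1 ^ 2 := by gcongr
      _ = 4 * (T ^ 4 * Q) := by ring
  rw [e1]
  calc 12 * T * A ^ 2 / c ^ 2 * (Q * B ^ 2 * ((x⁻¹) ^ 2) ^ 2 / n ^ 2) ≤ 12 * T * A ^ 2 / c ^ 2 * (4 * (T ^ 4 * Q)) := by gcongr
    _ ≤ 12 * T * A ^ 2 / c ^ 2 * (4 * (δ * c ^ 2 / (96 * A ^ 2))) := by gcongr
    _ = δ * T / 2 := by
      field_simp
      ring

end

end Pool.Agent.J4H4.NG
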