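import Pool.Agent.J4H2.UN.Stm

/-!
# Project NG: the zeros of `H_t` for negative times, statements

TARGET (`S_FINAL`): there is an absolute constant `C` such that for all `b > 0`, `δ > 0` and all large `R` at most `(C δ / b)` times all
zeros of `H_{-b}` in `|z| ≤ R` satisfy `|Im z| ≤ δ log R`. So the proportion of real zeros of `H_t` is `0` for every `t < 0`.

IDEA. `H_{-b} (z) = EE (b/4) (i z/2) / 8`, `EE a` = average of `Xi` with the Gaussian density of variance `2a` along vertical lines. Shifting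
the line to `Re s = 2` (`S_SH`) gives `EE a (3/2 + η + iv) = gam (2 + iv) e^{η²/4a} (DD a λ v + O(1/v))`, `λ = log (v/2π)/2 - η/2a`, with the
Dirichlet series `DD a λ v = ∑ n^(-2-iv) e^{-a (log n - λ - iπ/4)²}` (`S_REPR`). For most `v` it is not small near `v` (`S_GOOD`): sieve with the primes
`≤ z`, correlate with the primes in `(N, 2N]`, `N = e^λ`; the noise is smaller than the signal by the density of the sifted integers. Then Jensen.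
-/

set_option autoImplicit false

namespace Pool.Agent.J4H4.NG

open Complex MeasureTheory Filter Topology Set
open Pool.Agent.J4H1.JP (Xi)

noncomputable section

/-- `∫ Xi (w + iu) e^{-u²/4a} du / √(4πa)`, with `u = 2√a v` -/
def EE (a : ℝ) (w : ℂ) : ℂ :=
  ((1 / Real.sqrt Real.pi : ℝ) : ℂ) * ∫ v : ℝ, ((Real.exp (-v ^ 2) : ℝ) : ℂ) * Xi (w + ((2 * Real.sqrt a * v : ℝ) : ℂ) * I)

/-- `s (s - 1) π^(-s/2) Γ(s/2) / 2`; `Xi (s - 1/2) = gam s * ζ(s)` -/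
def gam (s : ℂ) : ℂ := s * (s - 1) / 2 * Complex.Gammaℝ s

/-- `log (v/2π) / 2 + iπ/4`, about `(gam'/gam) (2 + iv)` -/
def ell (v : ℝ) : ℂ := ((Real.log (v / (2 * Real.pi)) / 2 : ℝ) : ℂ) + I * ((Real.pi / 4 : ℝ) : ℂ)

/-- the Dirichlet series (`n + 1` for `n`) -/
def DD (a lam v : ℝ) : ℂ := ∑' n : ℕ, ((n : ℂ) + 1) ^ (-(2 : ℂ) - I * v) *
  cexp (-(a : ℂ) * ((Real.log ((n : ℝ) + 1) : ℂ) - lam - I * (Real.pi / 4)) ^ 2)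

/-! ## Analysis -/

/-- (REP). `Hd 0 z = Xi (I z / 2) / 8` (`t_H0` of J4H8.UN), `∫ e^{-v²} cos ((z + 2√b v) u) dv / √π = e^{-b u²} cos (z u)`, Fubini. -/
def S_REP : Prop := ∀ b : ℝ, 0 < b → (∀ z : ℂ, J4H2.DN.Hd (-b) z = 1 / 8 * EE (b / 4) (I * z / 2)) ∧ Differentiable ℂ (EE (b / 4)) ∧
  (∀ w : ℂ, EE (b / 4) (-w) = EE (b / 4) w) ∧ (∀ w : ℂ, EE (b / 4) ((starRingEnd ℂ) w) = (starRingEnd ℂ) (EE (b / 4) w))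

/-- (SH) the shift of the line: `u → u + iη` (`Xi` is `Slow`: `(J4H8.DN.t_X).1`) -/
def S_SH : Prop := ∀ a : ℝ, 0 < a → ∀ η v : ℝ, EE a (((3 / 2 + η : ℝ) : ℂ) + I * v) =
  ((Real.exp (η ^ 2 / (4 * a)) / Real.sqrt (4 * Real.pi * a) : ℝ) : ℂ) *
    ∫ u : ℝ, Xi (3 / 2 + I * ((v + u : ℝ) : ℂ)) * cexp (-(u : ℂ) ^ 2 / (4 * a) - I * u * η / (2 * a))

/-- (LOC) Stirling: `gam (2 + i(v+u)) / gam (2 + iv) = e^{iu ell v} (1 + O((1 + u²)/v))` for `|u| ≤ √v`, and `|gam (2 + iy)|` is between multiples of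
`(1 + |y|)^(5/2) e^{-π|y|/4}` -/
def S_LOC : Prop := ∃ C V₀ : ℝ, 0 < C ∧ 1 ≤ V₀ ∧ ∀ v : ℝ, V₀ ≤ v → gam (2 + I * v) ≠ 0 ∧ ∀ u : ℝ,
  ‖gam (2 + I * ((v + u : ℝ) : ℂ)) / gam (2 + I * v) - cexp (I * u * ell v)‖ ≤ C / v * (1 + |u|) ^ 5 * Real.exp (Real.pi * |u| / 4)

/-- (REPR) from `S_SH`, `S_LOC`: `Xi (3/2 + iy) = gam (2 + iy) ζ(2 + iy)`, `ζ(2 + iy) = ∑ n^(-2-iy)`, and
`∫ e^{iu ell v - u²/4a - iu (η/2a + log n)} du = √(4πa) e^{-a (η/2a + log n - ell v)²}` -/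
def S_REPR : Prop := ∀ a : ℝ, 0 < a → ∃ C V₀ : ℝ, 0 < C ∧ 1 ≤ V₀ ∧ ∀ v : ℝ, V₀ ≤ v → ∀ η : ℝ,
  ‖EE a (((3 / 2 + η : ℝ) : ℂ) + I * v) - gam (2 + I * v) * ((Real.exp (η ^ 2 / (4 * a)) : ℝ) : ℂ) *
      DD a (Real.log (v / (2 * Real.pi)) / 2 - η / (2 * a)) v‖ ≤ C / v * Real.exp (η ^ 2 / (4 * a)) * ‖gam (2 + I * v)‖

/-- (UPB) upper bound, from `S_REPR`: `‖DD a λ v‖ ≤ ζ(2) e^{aπ²/16}` -/
def S_UPB : Prop := ∀ a : ℝ, 0 < a → ∃ C V₀ : ℝ, 0 < C ∧ 1 ≤ V₀ ∧ ∀ v : ℝ, V₀ ≤ v → ∀ η : ℝ,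
  ‖EE a (((3 / 2 + η : ℝ) : ℂ) + I * v)‖ ≤ C * Real.exp (η ^ 2 / (4 * a)) * ‖gam (2 + I * v)‖

/-- (FAR) lower bound, from `S_REPR` with `λ = -1/a`: the term `n = 1` has modulus `e^{-1/a + aπ²/16}`, the others at most `n^(-4)` times this -/
def S_FAR : Prop := ∀ a : ℝ, 0 < a → ∃ c V₀ : ℝ, 0 < c ∧ 1 ≤ V₀ ∧ ∀ v : ℝ, V₀ ≤ v →
  c * ‖gam (2 + I * v)‖ ≤ ‖EE a (((3 / 2 + (a * Real.log (v / (2 * Real.pi)) + 2) : ℝ) : ℂ) + I * v)‖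

/-! ## Good points -/

/-- no prime factor `≤ z` -/
def Rough (z k : ℕ) : Prop := ∀ q : ℕ, q.Prime → q ≤ z → ¬ q ∣ k

/-- (RC) `∏ (1 - 1/q)` diverges to `0`; count the classes modulo `∏ q` prime to it -/
def S_RC : Prop := ∀ ε : ℝ, 0 < ε → ∃ (z : ℕ) (H₀ : ℝ), 0 < H₀ ∧ ∀ (x h : ℝ), H₀ ≤ h → ∀ S : Finset ℕ,
  (∀ k ∈ S, Rough z k ∧ x < k ∧ (k : ℝ) ≤ x + h) → (S.card : ℝ) ≤ ε * h

/-- (CH) Chebyshev -/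
def S_CH : Prop := ∃ c : ℝ, 0 < c ∧ ∀ N : ℕ, 2 ≤ N →
  c * N / Real.log N ≤ (((Finset.Ioc N (2 * N)).filter Nat.Prime).card : ℝ)

/-- amplitude: `k^(-2) e^{-a (log k - λ)²}` -/
def amp (a lam : ℝ) (k : ℕ) : ℝ := ((k : ℝ) ^ 2)⁻¹ * Real.exp (-a * (Real.log k - lam) ^ 2)

/-- bound for the Fourier transform of the triangle on `[0, l]` at `log (k/p)` -/
def wt (l : ℝ) (k p : ℕ) : ℝ := min (l / 2) (8 / (l * (Real.log (k / p)) ^ 2))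

/-- (NS) the noise, from `S_RC`. For fixed `p`: if `|log (k/p)| ≤ 1`, `amp² ≤ C N^(-4)`, `wt ≤ C min (l, N²/(l (k-p)²))`, blocks of length `H = N/l ≥ √N`
contain at most `ε H` rough `k`, in all `≤ C ε N^(-4) l² (N/l)`. If `|log (k/p)| > 1`: `wt ≤ 8/l`, `∑ k^(-4) e^{-2a (log k - λ)²} ≤ C N^(-3)`,
small for `l ≥ l₀`. -/
def S_NS : Prop := ∀ a ε : ℝ, 0 < a → 0 < ε → ∃ (z : ℕ) (l₀ : ℝ), 1 ≤ l₀ ∧ ∀ (N : ℕ) (lam l : ℝ), l₀ ≤ l → l ^ 2 ≤ N →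
  |Real.log N - lam| ≤ 1 → ∀ p ∈ (Finset.Ioc N (2 * N)).filter Nat.Prime, ∀ S : Finset ℕ, (∀ k ∈ S, Rough z k ∧ k ≠ p ∧ 1 ≤ k) →
  ∑ k ∈ S, (amp a lam k) ^ 2 * (wt l k p) ^ 2 ≤ ε * l / (N : ℝ) ^ 3

/-- (MS) mean square, with the majorant `e^{1/4} e^{-((v - 3T/2)/T)²}` of `[T, 2T]` -/
def S_MS : Prop := ∀ {ι : Type} [DecidableEq ι] (J : Finset ι) (om : ι → ℝ) (A : ι → ℂ) (T D : ℝ), 1 ≤ T → 0 ≤ D →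
  (∀ i ∈ J, ∀ j ∈ J, i ≠ j → D ≤ |om i - om j|) →
  ∫ v in T..2 * T, ‖∑ j ∈ J, A j * cexp (I * (om j * v))‖ ^ 2 ≤
    3 * T * (∑ j ∈ J, ‖A j‖ ^ 2 + Real.exp (-(T * D) ^ 2 / 4) * (∑ j ∈ J, ‖A j‖) ^ 2)

/-- (MOB) the sieve: `P = ∏_{q ≤ z} q`, `∑_{b | P} μ(b) b^(-2-iv) DD a (λ - log b) v = ∑_{k rough} k^(-2-iv) e^{-a (log k - λ - iπ/4)²}` -/
def S_MOB : Prop := ∀ (a lam v : ℝ) (z : ℕ), 0 < a →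
  ∑ b ∈ (primorial z).divisors, (ArithmeticFunction.moebius b : ℂ) * (b : ℂ) ^ (-(2 : ℂ) - I * v) * DD a (lam - Real.log b) v =
  ∑' n : ℕ, (open Classical in if Rough z (n + 1) then ((n : ℂ) + 1) ^ (-(2 : ℂ) - I * v) *
    cexp (-(a : ℂ) * ((Real.log ((n : ℝ) + 1) : ℂ) - lam - I * (Real.pi / 4)) ^ 2) else 0)

/-- (GOOD) for most `v` the Dirichlet series is not small near `v`. PROOF. `l = κ log T`, `N = ⌊e^λ⌋`, `z` from (NS) with a small `ε`, `F` the right side of (MOB),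
`R(v) = ∑_p θ_p p^(iv)`, `|θ_p| = 1` with `θ_p e^{-a (log p - λ - iπ/4)²} > 0`, `C(v) = ∫_0^l tri(u) F(v+u) R(v+u) du = ∑_(k,p) ...`.
Diagonal `k = p`: `(l/2) e^{aπ²/16} ∑_p amp p ≥ c l N^(-2) #p`. `p | k`, `k = pj`, `j ≥ 2`: at most `(C/l) N^(-2) #p`. `k > N^(1+μ)`: negligible.
The rest: the `log (p/k)` are distinct with spacing `≥ 1/(2 N^(2+μ)) ≥ T^(μ-1)/C`, mean square by (MS), (NS) `≤ C ε T l N^(-3) #p`, Chebyshev's inequality and (CH).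
If all `‖DD a (λ - log b) (v+u)‖ < T^(μ-1)`, then `|C(v)| ≤ 2 l #p T^(μ-1)`, less than half of the diagonal, since `N^(-2) ≥ T^(2μ-1)/e²`. -/
def S_GOOD : Prop := ∀ a μ κ δ : ℝ, 0 < a → 0 < μ → μ < 1 / 2 → 0 < κ → 0 < δ → ∃ (P : ℕ) (T₀ : ℝ), 1 ≤ P ∧ 2 ≤ T₀ ∧ ∀ T : ℝ, T₀ ≤ T →
  ∀ lam : ℝ, μ * Real.log T ≤ lam → lam ≤ (1 / 2 - μ) * Real.log T →
  volume {v : ℝ | T ≤ v ∧ v ≤ 2 * T ∧ ∀ b : ℕ, 1 ≤ b → b ≤ P → ∀ u : ℝ, 0 ≤ u → u ≤ κ * Real.log T →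
    ‖DD a (lam - Real.log b) (v + u)‖ < T ^ (μ - 1)} ≤ ENNReal.ofReal (δ * T)

def S_G : Prop := S_NS → S_MS → S_MOB → S_CH → S_GOOD

/-! ## Zeros near the axis -/

/-- (JEN) Jensen -/
def S_JEN : Prop := ∀ (f : ℂ → ℂ) (c : ℂ) (r M : ℝ), Differentiable ℂ f → 0 < r → f c ≠ 0 →
  (∀ w : ℂ, ‖w - c‖ ≤ 2 * r → ‖f w‖ ≤ Real.exp M * ‖f c‖) → ∀ S : Finset ℂ, (∀ w ∈ S, f w = 0 ∧ ‖w - c‖ ≤ r) →
  ∑ w ∈ S, (analyticOrderNatAt f w : ℝ) ≤ M / Real.log 2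

/-- (GAM) from `S_LOC` -/
def S_GAM : Prop := ∃ C V₀ : ℝ, 1 ≤ C ∧ 1 ≤ V₀ ∧ ∀ v v' : ℝ, V₀ ≤ v → V₀ ≤ v' → gam (2 + I * v) ≠ 0 ∧
  ‖gam (2 + I * v')‖ ≤ C * (1 + |v' - v|) ^ 5 * Real.exp (Real.pi * |v' - v| / 4) * ‖gam (2 + I * v)‖

/-- (BOX) any box: Jensen with centre `3/2 + (a log (v/2π) + 2) + iv` (FAR), `r = 3 a log v`; on the double disc `|η| ≤ 7.1 a log v`, so
`M ≤ 13 a log² v` (UPB, GAM); `13/log 2 < 19` -/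
def S_BOX : Prop := ∀ a : ℝ, 0 < a → ∃ V₀ : ℝ, 1 ≤ V₀ ∧ ∀ v : ℝ, V₀ ≤ v → ∀ S : Finset ℂ,
  (∀ w ∈ S, EE a w = 0 ∧ |w.re| ≤ a * Real.log v ∧ |w.im - v| ≤ a * Real.log v) →
  ∑ w ∈ S, (analyticOrderNatAt (EE a) w : ℝ) ≤ 20 * a * (Real.log v) ^ 2

/-- (GBOX) a box with a good point `3/2 + η + iv`: Jensen with this centre, `r = 3 κ log T`; on the double disc `|η'| ≤ 7.1 κ log T`, so
`M ≤ 12.61 (κ²/a) log² T + O(log T)` -/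
def S_GBOX : Prop := ∀ a κ : ℝ, 0 < a → 0 < κ → ∃ T₀ : ℝ, 2 ≤ T₀ ∧ ∀ T v η : ℝ, T₀ ≤ T → T ≤ v → v ≤ 4 * T → 0 ≤ η →
  η ≤ κ * Real.log T → T⁻¹ * ‖gam (2 + I * v)‖ ≤ ‖EE a (((3 / 2 + η : ℝ) : ℂ) + I * v)‖ → ∀ S : Finset ℂ,
  (∀ w ∈ S, EE a w = 0 ∧ |w.re| ≤ κ * Real.log T ∧ |w.im - v| ≤ 2 * κ * Real.log T) →
  ∑ w ∈ S, (analyticOrderNatAt (EE a) w : ℝ) ≤ 20 * (κ ^ 2 / a) * (Real.log T) ^ 2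

/-- (NEAR) boxes `[v, v + κ log T]`. (GOOD) with `μ = κ/(4a)`, `λ = (1/2 - μ) log T`, `δ = κ²/(4a²)`: unless the whole box is in the bad set, there is a good point
with `v` in the double box and `η = 2a (log (v/2π)/2 - λ + log b) ∈ [0, κ log T]`: (REPR), (GBOX). At most `δT/(κ log T)` boxes are bad: (BOX). -/
def S_NEAR : Prop := ∀ a κ : ℝ, 0 < a → 0 < κ → κ ≤ a → ∃ T₀ : ℝ, 2 ≤ T₀ ∧ ∀ T : ℝ, T₀ ≤ T → ∀ S : Finset ℂ,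
  (∀ w ∈ S, EE a w = 0 ∧ |w.re| ≤ κ * Real.log T ∧ T ≤ w.im ∧ w.im ≤ 2 * T) →
  ∑ w ∈ S, (analyticOrderNatAt (EE a) w : ℝ) ≤ 50 * (κ / a) * T * Real.log T

def S_N : Prop := S_GOOD → S_REPR → S_BOX → S_GBOX → S_NEAR

/-! ## All zeros -/

/-- (GRO) growth of `H_{-b}`: `|H_{-b}(z)| ≤ H_{-b}(i|z|) ≤ e^{|z| log |z|}`, `H_{-b}(iy) ≥ e^{(y/5) log y}` (restrict to `u` near `(log y)/4 - 1`) -/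
def S_GRO : Prop := ∀ b : ℝ, 0 < b → ∃ R₀ : ℝ, 2 ≤ R₀ ∧ (∀ z : ℂ, R₀ ≤ ‖z‖ → ‖J4H2.DN.Hd (-b) z‖ ≤ Real.exp (‖z‖ * Real.log ‖z‖)) ∧
  (∀ y : ℝ, R₀ ≤ y → Real.exp (y / 5 * Real.log y) ≤ ‖J4H2.DN.Hd (-b) (I * y)‖) ∧ J4H2.DN.Hd (-b) 0 ≠ 0 ∧
  Differentiable ℂ (J4H2.DN.Hd (-b))

/-- (UPT) from `S_JEN`, `S_GRO`: centre `0` -/
def S_UPT : Prop := ∀ b : ℝ, 0 < b → ∃ R₀ : ℝ, 2 ≤ R₀ ∧ ∀ R : ℝ, R₀ ≤ R → ∀ S : Finset ℂ, (∀ z ∈ S, J4H2.DN.Hd (-b) z = 0 ∧ ‖z‖ ≤ R) →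
  ∑ z ∈ S, (analyticOrderNatAt (J4H2.DN.Hd (-b)) z : ℝ) ≤ 4 * R * Real.log R

/-- (TOT) lower bound for the number of all zeros, `n(KR) ≥ c R log R`. `H_{-b}(z) = F(z²)` with `F` of order at most `3/4`, so (Hadamard)
`log |H_{-b}(iR)/H_{-b}(0)| ≤ ∑_ρ log (1 + R²/|ρ|²)`, over half of the zeros; with `n(ρ) ≤ 4 ρ log ρ` (UPT) this is at most `C (R/K) log R + C n(KR) log K`. -/
def S_TOT : Prop := ∃ c : ℝ, 0 < c ∧ ∀ b : ℝ, 0 < b → ∃ R₀ : ℝ, 2 ≤ R₀ ∧ ∀ R : ℝ, R₀ ≤ R → ∃ S : Finset ℂ,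
  (∀ z ∈ S, J4H2.DN.Hd (-b) z = 0 ∧ ‖z‖ ≤ R) ∧
  c * R * Real.log R ≤ ∑ z ∈ S, (analyticOrderNatAt (J4H2.DN.Hd (-b)) z : ℝ)

def S_T : Prop := S_GRO → S_UPT → S_TOT

/-- (FINAL) from `S_REP`, `S_NEAR`, `S_UPT`, `S_TOT`: for `δ ≤ b/4` dyadic blocks `T = R/4, R/8, ..., ≥ √R`, `κ = δ`; for `δ > b/4` trivial if `C ≥ 4` -/
def S_FINAL : Prop := ∃ C : ℝ, 0 < C ∧ ∀ b δ : ℝ, 0 < b → 0 < δ → ∃ R₀ : ℝ, 2 ≤ R₀ ∧ ∀ R : ℝ, R₀ ≤ R →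
  {z : ℂ | J4H2.DN.Hd (-b) z = 0 ∧ ‖z‖ ≤ R}.Finite ∧
  ∑ᶠ z ∈ {z : ℂ | (J4H2.DN.Hd (-b) z = 0 ∧ ‖z‖ ≤ R) ∧ |z.im| ≤ δ * Real.log R}, (analyticOrderNatAt (J4H2.DN.Hd (-b)) z : ℝ) ≤
    C * δ / b * ∑ᶠ z ∈ {z : ℂ | J4H2.DN.Hd (-b) z = 0 ∧ ‖z‖ ≤ R}, (analyticOrderNatAt (J4H2.DN.Hd (-b)) z : ℝ)

def S_E : Prop := S_REP → S_NEAR → S_UPT → S_TOT → S_FINAL

end

end Pool.Agent.J4H4.NG
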